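import Pool.Agent.Helper67.PY.Block

/-!
# Guard sets hit every witness set

`Blk P p v`: some edge of `P` crosses the open segment from `p` to `v` transversally in the relative
interior of the edge.  Every guard set contains a vertex `v` which is not blocked from `p`.
-/

namespace Pool.Agent.Helper67.PY

open Set

namespace OrthPolygon

variable {n : ℕ} (P : OrthPolygon n)

/-- `S` guards the region `R` and its exterior. -/
def Guards (R : Set (ℝ × ℝ)) (S : Finset (ZMod n)) : Prop :=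
  (∀ p ∈ R, ∃ i ∈ S, segment ℝ (P.pt i) p ⊆ R) ∧
  (∀ p ∈ closure Rᶜ, ∃ i ∈ S, segment ℝ (P.pt i) p ⊆ closure Rᶜ)

/-- The horizontal segment `[x0, x1] × {y}` crosses the open segment from `p` to `v` in its relative
interior. -/
def CrossH (x0 x1 y : ℝ) (p v : ℝ × ℝ) : Prop :=
  (p.2 < y ∧ y < v.2 ∧ (x0 - p.1) * (v.2 - p.2) < (v.1 - p.1) * (y - p.2) ∧
    (v.1 - p.1) * (y - p.2) < (x1 - p.1) * (v.2 - p.2)) ∨
  (v.2 < y ∧ y < p.2 ∧ (x0 - p.1) * (p.2 - v.2) < (v.1 - p.1) * (p.2 - y) ∧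
    (v.1 - p.1) * (p.2 - y) < (x1 - p.1) * (p.2 - v.2))

/-- The vertical segment `{x} × [y0, y1]` crosses the open segment from `p` to `v` in its relative
interior. -/
def CrossV (x y0 y1 : ℝ) (p v : ℝ × ℝ) : Prop :=
  (p.1 < x ∧ x < v.1 ∧ (y0 - p.2) * (v.1 - p.1) < (v.2 - p.2) * (x - p.1) ∧
    (v.2 - p.2) * (x - p.1) < (y1 - p.2) * (v.1 - p.1)) ∨
  (v.1 < x ∧ x < p.1 ∧ (y0 - p.2) * (p.1 - v.1) < (v.2 - p.2) * (p.1 - x) ∧
    (v.2 - p.2) * (p.1 - x) < (y1 - p.2) * (p.1 - v.1))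

/-- Some edge of `P` crosses the open segment from `p` to `v`. -/
def Blk (p v : ℝ × ℝ) : Prop :=
  (∃ i, P.Hor i ∧ CrossH (min (P.pt i).1 (P.pt (i + 1)).1) (max (P.pt i).1 (P.pt (i + 1)).1)
    (P.pt i).2 p v) ∨
  (∃ i, ¬ P.Hor i ∧ CrossV (P.pt i).1 (min (P.pt i).2 (P.pt (i + 1)).2)
    (max (P.pt i).2 (P.pt (i + 1)).2) p v)

theorem crossH_point {x0 x1 y : ℝ} {p v : ℝ × ℝ} (h : CrossH x0 x1 y p v) :
    ∃ q ∈ openSegment ℝ p v, x0 < q.1 ∧ q.1 < x1 ∧ q.2 = y := by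
  rcases h with ⟨h1, h2, h3, h4⟩ | ⟨h1, h2, h3, h4⟩
  · have hd : 0 < v.2 - p.2 := by linarith
    refine ⟨(p.1 + (y - p.2) / (v.2 - p.2) * (v.1 - p.1), y), ?_, ?_, ?_, rfl⟩
    · refine ⟨(v.2 - y) / (v.2 - p.2), (y - p.2) / (v.2 - p.2), div_pos (by linarith) hd,
        div_pos (by linarith) hd, ?_, ?_⟩
      · field_simp; ring
      · ext
        · simp only [Prod.fst_add, Prod.smul_fst, smul_eq_mul]; field_simp; ring
        · simp only [Prod.snd_add, Prod.smul_snd, smul_eq_mul]; field_simp; ring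
    · show x0 < p.1 + (y - p.2) / (v.2 - p.2) * (v.1 - p.1)
      have h5 : (x0 - p.1) < (v.1 - p.1) * (y - p.2) / (v.2 - p.2) := by
        rw [lt_div_iff₀ hd]; exact h3
      have h6 : (y - p.2) / (v.2 - p.2) * (v.1 - p.1) = (v.1 - p.1) * (y - p.2) / (v.2 - p.2) := by
        ring
      linarith
    · show p.1 + (y - p.2) / (v.2 - p.2) * (v.1 - p.1) < x1
      have h5 : (v.1 - p.1) * (y - p.2) / (v.2 - p.2) < x1 - p.1 := by
        rw [div_lt_iff₀ hd]; exact h4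
      have h6 : (y - p.2) / (v.2 - p.2) * (v.1 - p.1) = (v.1 - p.1) * (y - p.2) / (v.2 - p.2) := by
        ring
      linarith
  · have hd : 0 < p.2 - v.2 := by linarith
    refine ⟨(p.1 + (p.2 - y) / (p.2 - v.2) * (v.1 - p.1), y), ?_, ?_, ?_, rfl⟩
    · refine ⟨(y - v.2) / (p.2 - v.2), (p.2 - y) / (p.2 - v.2), div_pos (by linarith) hd,
        div_pos (by linarith) hd, ?_, ?_⟩
      · field_simp; ring
      · ext
        · simp only [Prod.fst_add, Prod.smul_fst, smul_eq_mul]; field_simp; ring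
        · simp only [Prod.snd_add, Prod.smul_snd, smul_eq_mul]; field_simp; ring
    · show x0 < p.1 + (p.2 - y) / (p.2 - v.2) * (v.1 - p.1)
      have h5 : (x0 - p.1) < (v.1 - p.1) * (p.2 - y) / (p.2 - v.2) := by
        rw [lt_div_iff₀ hd]; exact h3
      have h6 : (p.2 - y) / (p.2 - v.2) * (v.1 - p.1) = (v.1 - p.1) * (p.2 - y) / (p.2 - v.2) := by
        ring
      linarith
    · show p.1 + (p.2 - y) / (p.2 - v.2) * (v.1 - p.1) < x1
      have h5 : (v.1 - p.1) * (p.2 - y) / (p.2 - v.2) < x1 - p.1 := by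
        rw [div_lt_iff₀ hd]; exact h4
      have h6 : (p.2 - y) / (p.2 - v.2) * (v.1 - p.1) = (v.1 - p.1) * (p.2 - y) / (p.2 - v.2) := by
        ring
      linarith

theorem crossV_swap {x y0 y1 : ℝ} {p v : ℝ × ℝ} (h : CrossV x y0 y1 p v) :
    CrossH y0 y1 x p.swap v.swap := h

theorem crossV_point {x y0 y1 : ℝ} {p v : ℝ × ℝ} (h : CrossV x y0 y1 p v) :
    ∃ q ∈ openSegment ℝ p v, y0 < q.2 ∧ q.2 < y1 ∧ q.1 = x := by
  obtain ⟨q, ⟨a, b, ha, hb, hab, hq⟩, h1, h2, h3⟩ := crossH_point (crossV_swap h)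
  refine ⟨q.swap, ⟨a, b, ha, hb, hab, ?_⟩, h1, h2, h3⟩
  rw [← hq]
  ext
  · simp
  · simp

theorem not_seg_of_blk {R : Set (ℝ × ℝ)} (hR : IsRegion R P.boundary) {p v : ℝ × ℝ}
    (h : P.Blk p v) : ¬ segment ℝ p v ⊆ R ∧ ¬ segment ℝ p v ⊆ closure Rᶜ := by
  rcases h with ⟨i, hi, h⟩ | ⟨i, hi, h⟩
  · obtain ⟨q, hq, h1, h2, h3⟩ := crossH_point h
    have hne : p.2 ≠ v.2 := by
      rcases h with h | h
      · exact (h.1.trans h.2.1).ne
      · exact (h.1.trans h.2.1).ne'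
    refine P.blocked_hor hR hi (q := q) ?_ ?_ ?_ hq hne
    · rw [P.segment_hor hi, uIcc, mem_Icc]
      exact ⟨⟨h1.le, h2.le⟩, h3⟩
    · rintro rfl
      rcases le_total (P.pt i).1 (P.pt (i + 1)).1 with h4 | h4
      · rw [min_eq_left h4] at h1; exact lt_irrefl _ h1
      · rw [max_eq_left h4] at h2; exact lt_irrefl _ h2
    · rintro rfl
      rcases le_total (P.pt i).1 (P.pt (i + 1)).1 with h4 | h4
      · rw [max_eq_right h4] at h2; exact lt_irrefl _ h2
      · rw [min_eq_right h4] at h1; exact lt_irrefl _ h1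
  · obtain ⟨q, hq, h1, h2, h3⟩ := crossV_point h
    have hne : p.1 ≠ v.1 := by
      rcases h with h | h
      · exact (h.1.trans h.2.1).ne
      · exact (h.1.trans h.2.1).ne'
    refine P.blocked_vert hR hi (q := q) ?_ ?_ ?_ hq hne
    · rw [P.segment_vert hi, uIcc, mem_Icc]
      exact ⟨h3, ⟨h1.le, h2.le⟩⟩
    · rintro rfl
      rcases le_total (P.pt i).2 (P.pt (i + 1)).2 with h4 | h4
      · rw [min_eq_left h4] at h1; exact lt_irrefl _ h1
      · rw [max_eq_left h4] at h2; exact lt_irrefl _ h2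
    · rintro rfl
      rcases le_total (P.pt i).2 (P.pt (i + 1)).2 with h4 | h4
      · rw [max_eq_right h4] at h2; exact lt_irrefl _ h2
      · rw [min_eq_right h4] at h1; exact lt_irrefl _ h1

/-- **Witness lemma.**  If all vertices outside `V` are blocked from the point `p`, then every guard
set contains a vertex in `V`. -/
theorem hit {R : Set (ℝ × ℝ)} (hR : IsRegion R P.boundary) {S : Finset (ZMod n)}
    (hS : P.Guards R S) (p : ℝ × ℝ) (V : ZMod n → Prop) (hV : ∀ i, ¬ V i → P.Blk p (P.pt i)) :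
    ∃ i ∈ S, V i := by
  by_cases hp : p ∈ R
  · obtain ⟨i, hi, hs⟩ := hS.1 p hp
    refine ⟨i, hi, ?_⟩
    by_contra h
    rw [segment_symm] at hs
    exact (P.not_seg_of_blk hR (hV i h)).1 hs
  · obtain ⟨i, hi, hs⟩ := hS.2 p (subset_closure hp)
    refine ⟨i, hi, ?_⟩
    by_contra h
    rw [segment_symm] at hs
    exact (P.not_seg_of_blk hR (hV i h)).2 hs

end OrthPolygon

end Pool.Agent.Helper67.PY
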