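import Pool.Agent.Helper67.PY.Polygon

/-!
# Blocking lemma

If a segment crosses an edge of the polygon transversally in the relative interior of the edge, then
it is contained neither in the closed region nor in the closure of its complement.
-/

namespace Pool.Agent.Helper67.PY

open Set

/-- `R` is a closed region with frontier `B`: it is closed, it is the closure of its interior, and
its frontier is `B`. -/
structure IsRegion (R B : Set (ℝ × ℝ)) : Prop where
  closed : IsClosed R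
  regular : R ⊆ closure (interior R)
  front : frontier R = B

/-- A preconnected set which misses the frontier of `R` lies in `R` or in its complement. -/
theorem subset_or_compl {R S : Set (ℝ × ℝ)} (hS : IsPreconnected S)
    (hd : Disjoint S (frontier R)) : S ⊆ R ∨ S ⊆ Rᶜ := by
  have h1 : S ⊆ interior R ∪ (closure R)ᶜ := by
    intro z hz
    by_cases h2 : z ∈ closure R
    · left
      by_contra h3
      exact disjoint_left.1 hd hz ⟨h2, h3⟩
    · exact Or.inr h2
  have h2 : Disjoint (interior R) (closure R)ᶜ := by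
    rw [disjoint_left]
    intro z hz hz'
    exact hz' (subset_closure (interior_subset hz))
  rcases hS.subset_or_subset isOpen_interior isClosed_closure.isOpen_compl h2 h1 with h | h
  · exact Or.inl (h.trans interior_subset)
  · exact Or.inr (h.trans (compl_subset_compl.2 subset_closure))

/-- The local statement: `q` is a point of the frontier, near `q` the frontier is contained in the
union of `F` and the complement of `U ∪ V`, where `U`, `V` are connected and `U ∪ V ∪ F` is a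
neighbourhood of `q`. -/
theorem not_both {R B : Set (ℝ × ℝ)} (hR : IsRegion R B) {q : ℝ × ℝ} (hq : q ∈ B)
    {U V N : Set (ℝ × ℝ)} (hN : IsOpen N) (hqN : q ∈ N) (hU : IsPreconnected U)
    (hV : IsPreconnected V) (hUB : Disjoint U B) (hVB : Disjoint V B)
    (hNU : N ⊆ U ∪ V ∪ B) {s : Set (ℝ × ℝ)} (h1 : (s ∩ U).Nonempty) (h2 : (s ∩ V).Nonempty) :
    ¬ s ⊆ R ∧ ¬ s ⊆ closure Rᶜ := by
  have hf := hR.front
  have hq' : q ∈ frontier R := by rw [hf]; exact hq
  have hBR : B ⊆ R := by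
    rw [← hf]
    exact hR.closed.frontier_subset
  rw [← hf] at hUB hVB
  have hcl : ∀ z, z ∉ frontier R → z ∈ closure Rᶜ → z ∈ Rᶜ := by
    intro z hz hz' hzR
    apply hz
    rw [frontier_eq_closure_inter_closure]
    exact ⟨subset_closure hzR, hz'⟩
  constructor
  · intro hs
    obtain ⟨a, ha1, ha2⟩ := h1
    obtain ⟨b, hb1, hb2⟩ := h2
    have hU' : U ⊆ R := by
      rcases subset_or_compl hU hUB with h | h
      · exact h
      · exact absurd (hs ha1) (h ha2)
    have hV' : V ⊆ R := by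
      rcases subset_or_compl hV hVB with h | h
      · exact h
      · exact absurd (hs hb1) (h hb2)
    have hNR : N ⊆ R := fun z hz => by
      rcases hNU hz with (h | h) | h
      · exact hU' h
      · exact hV' h
      · exact hBR h
    have : q ∈ interior R := mem_interior.2 ⟨N, hNR, hN, hqN⟩
    exact hq'.2 this
  · intro hs
    obtain ⟨a, ha1, ha2⟩ := h1
    obtain ⟨b, hb1, hb2⟩ := h2
    have hU' : U ⊆ Rᶜ := by
      rcases subset_or_compl hU hUB with h | h
      · exact absurd (h ha2) (hcl a (disjoint_left.1 hUB ha2) (hs ha1))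
      · exact h
    have hV' : V ⊆ Rᶜ := by
      rcases subset_or_compl hV hVB with h | h
      · exact absurd (h hb2) (hcl b (disjoint_left.1 hVB hb2) (hs hb1))
      · exact h
    have h3 : q ∈ closure (interior R) := hR.regular (hBR hq)
    obtain ⟨z, hz1, hz2⟩ := mem_closure_iff.1 h3 N hN hqN
    rcases hNU hz1 with (h | h) | h
    · exact hU' h (interior_subset hz2)
    · exact hV' h (interior_subset hz2)
    · rw [← hf] at h
      exact h.2 hz2

namespace OrthPolygon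

variable {n : ℕ} (P : OrthPolygon n)

theorem isClosed_edge (i : ZMod n) : IsClosed (segment ℝ (P.pt i) (P.pt (i + 1))) := by
  by_cases h : P.Hor i
  · have : segment ℝ (P.pt i) (P.pt (i + 1)) =
        {p | p.1 ∈ uIcc (P.pt i).1 (P.pt (i + 1)).1 ∧ p.2 = (P.pt i).2} := by
      ext p
      exact P.segment_hor h p
    rw [this]
    exact (isClosed_Icc.preimage continuous_fst).inter (isClosed_eq continuous_snd continuous_const)
  · have : segment ℝ (P.pt i) (P.pt (i + 1)) =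
        {p | p.1 = (P.pt i).1 ∧ p.2 ∈ uIcc (P.pt i).2 (P.pt (i + 1)).2} := by
      ext p
      exact P.segment_vert h p
    rw [this]
    exact (isClosed_eq continuous_fst continuous_const).inter (isClosed_Icc.preimage continuous_snd)

/-- Points in the relative interior of an edge are on no other edge. -/
theorem not_mem_other {i : ZMod n} {q : ℝ × ℝ} (hq : q ∈ segment ℝ (P.pt i) (P.pt (i + 1)))
    (h0 : q ≠ P.pt i) (h1 : q ≠ P.pt (i + 1)) {j : ZMod n} (hj : j ≠ i) :
    q ∉ segment ℝ (P.pt j) (P.pt (j + 1)) := by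
  intro hqj
  by_cases h2 : i = j + 1
  · -- `j` is the edge before `i`
    have hij : P.Hor i ↔ ¬ P.Hor j := by rw [h2]; exact P.hor_succ j
    by_cases h : P.Hor i
    · have hj' := hij.1 h
      rw [P.segment_vert hj'] at hqj
      rw [P.segment_hor h] at hq
      apply h0
      have e : (P.pt i).1 = (P.pt j).1 := by rw [h2]; exact (P.vert_eq hj').symm
      exact Prod.ext (hqj.1.trans e.symm) hq.2
    · have hj' : P.Hor j := by
        by_contra h'
        exact h (hij.2 h')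
      rw [P.segment_hor hj'] at hqj
      rw [P.segment_vert h] at hq
      apply h0
      have e : (P.pt i).2 = (P.pt j).2 := by rw [h2]; exact hj'.symm
      exact Prod.ext hq.1 (hqj.2.trans e.symm)
  · by_cases h3 : j = i + 1
    · subst h3
      have hij := P.hor_succ i
      by_cases h : P.Hor i
      · have hj' : ¬ P.Hor (i + 1) := fun h' => (hij.1 h') h
        rw [P.segment_vert hj'] at hqj
        rw [P.segment_hor h] at hq
        apply h1
        exact Prod.ext hqj.1 (hq.2.trans h)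
      · have hj' : P.Hor (i + 1) := hij.2 h
        rw [P.segment_hor hj'] at hqj
        rw [P.segment_vert h] at hq
        apply h1
        exact Prod.ext (hq.1.trans (P.vert_eq h)) hqj.2
    · exact disjoint_left.1 (P.simple i j (Ne.symm hj) h2 h3) hq hqj

/-- Near a point of the relative interior of an edge, the boundary is the edge. -/
theorem exists_nbhd {i : ZMod n} {q : ℝ × ℝ} (hq : q ∈ segment ℝ (P.pt i) (P.pt (i + 1)))
    (h0 : q ≠ P.pt i) (h1 : q ≠ P.pt (i + 1)) :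
    ∃ δ : ℝ, 0 < δ ∧ ∀ z : ℝ × ℝ, |z.1 - q.1| < δ → |z.2 - q.2| < δ → z ∈ P.boundary →
      z ∈ segment ℝ (P.pt i) (P.pt (i + 1)) := by
  have : NeZero n := ⟨P.pos.ne'⟩
  have hopen : IsOpen (⋃ j ∈ {j : ZMod n | j ≠ i}, segment ℝ (P.pt j) (P.pt (j + 1)))ᶜ := by
    rw [isOpen_compl_iff]
    exact (Set.toFinite _).isClosed_biUnion (fun j _ => P.isClosed_edge j)
  have hmem : q ∈ (⋃ j ∈ {j : ZMod n | j ≠ i}, segment ℝ (P.pt j) (P.pt (j + 1)))ᶜ := by
    rw [mem_compl_iff, mem_iUnion₂]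
    rintro ⟨j, hj, hqj⟩
    exact P.not_mem_other hq h0 h1 hj hqj
  obtain ⟨δ, hδ, hball⟩ := Metric.isOpen_iff.1 hopen q hmem
  refine ⟨δ, hδ, fun z hz1 hz2 hz => ?_⟩
  have hzb : z ∈ Metric.ball q δ := by
    rw [Metric.mem_ball, Prod.dist_eq, Real.dist_eq, Real.dist_eq]
    exact max_lt hz1 hz2
  have h3 := hball hzb
  obtain ⟨j, hj⟩ := mem_iUnion.1 hz
  by_cases hji : j = i
  · rw [← hji]; exact hj
  · exfalso
    exact h3 (mem_iUnion₂.2 ⟨j, hji, hj⟩)

/-- **Blocking lemma**, horizontal edges: the segment from `p` to `v` crosses the relative interior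
of the horizontal edge `i` at the point `q`. -/
theorem blocked_hor {R : Set (ℝ × ℝ)} (hR : IsRegion R P.boundary) {i : ZMod n} (h : P.Hor i)
    {p v q : ℝ × ℝ} (hq : q ∈ segment ℝ (P.pt i) (P.pt (i + 1))) (h0 : q ≠ P.pt i)
    (h1 : q ≠ P.pt (i + 1)) (hqs : q ∈ openSegment ℝ p v) (hpv : p.2 ≠ v.2) :
    ¬ segment ℝ p v ⊆ R ∧ ¬ segment ℝ p v ⊆ closure Rᶜ := by
  obtain ⟨δ, hδ, hnb⟩ := P.exists_nbhd hq h0 h1
  set U : Set (ℝ × ℝ) := Ioo (q.1 - δ) (q.1 + δ) ×ˢ Ioo q.2 (q.2 + δ) with hUdef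
  set V : Set (ℝ × ℝ) := Ioo (q.1 - δ) (q.1 + δ) ×ˢ Ioo (q.2 - δ) q.2 with hVdef
  set N : Set (ℝ × ℝ) := Ioo (q.1 - δ) (q.1 + δ) ×ˢ Ioo (q.2 - δ) (q.2 + δ) with hNdef
  have hqy : q.2 = (P.pt i).2 := ((P.segment_hor h q).1 hq).2
  have habs : ∀ x a : ℝ, a - δ < x → x < a + δ → |x - a| < δ := by
    intro x a h1 h2
    rw [abs_lt]
    constructor <;> linarith
  have hqB : q ∈ P.boundary := mem_iUnion.2 ⟨i, hq⟩
  -- near `q` the segment is in both sides
  obtain ⟨a, b, ha, hb, hab, hqe⟩ := hqs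
  have hq1 : q.1 = a * p.1 + b * v.1 := by rw [← hqe]; rfl
  have hq2 : q.2 = a * p.2 + b * v.2 := by rw [← hqe]; rfl
  have hmove : ∃ ε : ℝ, 0 < ε ∧ ε < a ∧ ε < b ∧ ε * |v.1 - p.1| < δ ∧ ε * |v.2 - p.2| < δ := by
    have hpos1 : 0 < |v.1 - p.1| + 1 := by positivity
    have hpos2 : 0 < |v.2 - p.2| + 1 := by positivity
    refine ⟨min (min (a / 2) (b / 2)) (min (δ / (|v.1 - p.1| + 1)) (δ / (|v.2 - p.2| + 1))) / 2,
      ?_, ?_, ?_, ?_, ?_⟩
    · have : 0 < min (min (a / 2) (b / 2)) (min (δ / (|v.1 - p.1| + 1)) (δ / (|v.2 - p.2| + 1))) := by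
        refine lt_min (lt_min (by linarith) (by linarith)) (lt_min (by positivity) (by positivity))
      linarith
    · have h3 := (min_le_left (min (a / 2) (b / 2))
        (min (δ / (|v.1 - p.1| + 1)) (δ / (|v.2 - p.2| + 1)))).trans (min_le_left _ _)
      linarith
    · have h3 := (min_le_left (min (a / 2) (b / 2))
        (min (δ / (|v.1 - p.1| + 1)) (δ / (|v.2 - p.2| + 1)))).trans (min_le_right _ _)
      linarith
    · have h3 := (min_le_right (min (a / 2) (b / 2))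
        (min (δ / (|v.1 - p.1| + 1)) (δ / (|v.2 - p.2| + 1)))).trans (min_le_left _ _)
      have h4 : min (min (a / 2) (b / 2)) (min (δ / (|v.1 - p.1| + 1)) (δ / (|v.2 - p.2| + 1))) / 2
          * |v.1 - p.1| ≤ δ / (|v.1 - p.1| + 1) / 2 * |v.1 - p.1| := by
        apply mul_le_mul_of_nonneg_right _ (abs_nonneg _)
        linarith
      have h5 : δ / (|v.1 - p.1| + 1) / 2 * |v.1 - p.1| < δ := by
        rw [div_div, div_mul_eq_mul_div, div_lt_iff₀ (by positivity)]
        nlinarith [abs_nonneg (v.1 - p.1)]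
      linarith
    · have h3 := (min_le_right (min (a / 2) (b / 2))
        (min (δ / (|v.1 - p.1| + 1)) (δ / (|v.2 - p.2| + 1)))).trans (min_le_right _ _)
      have h4 : min (min (a / 2) (b / 2)) (min (δ / (|v.1 - p.1| + 1)) (δ / (|v.2 - p.2| + 1))) / 2
          * |v.2 - p.2| ≤ δ / (|v.2 - p.2| + 1) / 2 * |v.2 - p.2| := by
        apply mul_le_mul_of_nonneg_right _ (abs_nonneg _)
        linarith
      have h5 : δ / (|v.2 - p.2| + 1) / 2 * |v.2 - p.2| < δ := by
        rw [div_div, div_mul_eq_mul_div, div_lt_iff₀ (by positivity)]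
        nlinarith [abs_nonneg (v.2 - p.2)]
      linarith
  obtain ⟨ε, hε, hεa, hεb, hε1, hε2⟩ := hmove
  have hz1 : (q.1 + ε * (v.1 - p.1), q.2 + ε * (v.2 - p.2)) ∈ segment ℝ p v := by
    refine ⟨a - ε, b + ε, by linarith, by linarith, by linarith, ?_⟩
    ext
    · simp only [Prod.fst_add, Prod.smul_fst, smul_eq_mul, hq1]; ring
    · simp only [Prod.snd_add, Prod.smul_snd, smul_eq_mul, hq2]; ring
  have hz2 : (q.1 - ε * (v.1 - p.1), q.2 - ε * (v.2 - p.2)) ∈ segment ℝ p v := by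
    refine ⟨a + ε, b - ε, by linarith, by linarith, by linarith, ?_⟩
    ext
    · simp only [Prod.fst_add, Prod.smul_fst, smul_eq_mul, hq1]; ring
    · simp only [Prod.snd_add, Prod.smul_snd, smul_eq_mul, hq2]; ring
  have hb1 : |ε * (v.1 - p.1)| < δ := by rw [abs_mul, abs_of_pos hε]; exact hε1
  have hb2 : |ε * (v.2 - p.2)| < δ := by rw [abs_mul, abs_of_pos hε]; exact hε2
  rw [abs_lt] at hb1 hb2
  have hU : IsPreconnected U := ((convex_Ioo _ _).prod (convex_Ioo _ _)).isPreconnected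
  have hV : IsPreconnected V := ((convex_Ioo _ _).prod (convex_Ioo _ _)).isPreconnected
  have hUB : Disjoint U P.boundary := by
    rw [disjoint_left]
    rintro z ⟨hz1, hz2⟩ hz
    have h3 := hnb z (habs _ _ hz1.1 hz1.2) (habs _ _ (by linarith [hz2.1]) hz2.2) hz
    have h4 := ((P.segment_hor h z).1 h3).2
    rw [← hqy] at h4
    exact (ne_of_gt hz2.1) h4
  have hVB : Disjoint V P.boundary := by
    rw [disjoint_left]
    rintro z ⟨hz1, hz2⟩ hz
    have h3 := hnb z (habs _ _ hz1.1 hz1.2) (habs _ _ hz2.1 (by linarith [hz2.2])) hz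
    have h4 := ((P.segment_hor h z).1 h3).2
    rw [← hqy] at h4
    exact (ne_of_lt hz2.2) h4
  -- the middle part of `N` lies on the edge, after shrinking
  have hqx : q.1 ∈ Ioo (min (P.pt i).1 (P.pt (i + 1)).1) (max (P.pt i).1 (P.pt (i + 1)).1) := by
    have h3 := ((P.segment_hor h q).1 hq).1
    rw [uIcc, mem_Icc] at h3
    change min _ _ ≤ _ ∧ _ ≤ max _ _ at h3
    have h4 : q.1 ≠ (P.pt i).1 := fun h' => h0 (Prod.ext h' hqy)
    have h5 : q.1 ≠ (P.pt (i + 1)).1 := fun h' => h1 (Prod.ext h' (hqy.trans h))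
    rcases le_total (P.pt i).1 (P.pt (i + 1)).1 with h6 | h6
    · rw [min_eq_left h6, max_eq_right h6]
      rw [min_eq_left h6, max_eq_right h6] at h3
      exact ⟨lt_of_le_of_ne h3.1 (Ne.symm h4), lt_of_le_of_ne h3.2 h5⟩
    · rw [min_eq_right h6, max_eq_left h6]
      rw [min_eq_right h6, max_eq_left h6] at h3
      exact ⟨lt_of_le_of_ne h3.1 (Ne.symm h5), lt_of_le_of_ne h3.2 h4⟩
  obtain ⟨M, hMdef⟩ : ∃ M : Set (ℝ × ℝ), M = N ∩ (Ioo (min (P.pt i).1 (P.pt (i + 1)).1)
    (max (P.pt i).1 (P.pt (i + 1)).1) ×ˢ univ) := ⟨_, rfl⟩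
  have hMo : IsOpen M := by
    rw [hMdef]
    exact (isOpen_Ioo.prod isOpen_Ioo).inter (isOpen_Ioo.prod isOpen_univ)
  have hqM : q ∈ M := by
    rw [hMdef]
    exact ⟨⟨⟨by linarith, by linarith⟩, ⟨by linarith, by linarith⟩⟩, hqx, mem_univ _⟩
  have hMU : M ⊆ U ∪ V ∪ P.boundary := by
    rw [hMdef]
    rintro z ⟨⟨hz1, hz2⟩, hz3, -⟩
    rcases lt_trichotomy z.2 q.2 with h3 | h3 | h3
    · exact Or.inl (Or.inr ⟨hz1, hz2.1, h3⟩)
    · refine Or.inr (mem_iUnion.2 ⟨i, (P.segment_hor h z).2 ⟨?_, h3.trans hqy⟩⟩)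
      rw [uIcc, mem_Icc]
      exact ⟨hz3.1.le, hz3.2.le⟩
    · exact Or.inl (Or.inl ⟨hz1, h3, hz2.2⟩)
  rcases lt_or_gt_of_ne hpv with h3 | h3
  · refine not_both hR hqB hMo hqM hU hV hUB hVB hMU ⟨_, hz1, ?_⟩ ⟨_, hz2, ?_⟩
    · exact ⟨⟨by dsimp only; linarith [hb1.1], by dsimp only; linarith [hb1.2]⟩,
        ⟨by dsimp only; nlinarith, by dsimp only; linarith [hb2.2]⟩⟩
    · exact ⟨⟨by dsimp only; linarith [hb1.2], by dsimp only; linarith [hb1.1]⟩,
        ⟨by dsimp only; linarith [hb2.2], by dsimp only; nlinarith⟩⟩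
  · refine not_both hR hqB hMo hqM hU hV hUB hVB hMU ⟨_, hz2, ?_⟩ ⟨_, hz1, ?_⟩
    · exact ⟨⟨by dsimp only; linarith [hb1.2], by dsimp only; linarith [hb1.1]⟩,
        ⟨by dsimp only; nlinarith, by dsimp only; linarith [hb2.1]⟩⟩
    · exact ⟨⟨by dsimp only; linarith [hb1.1], by dsimp only; linarith [hb1.2]⟩,
        ⟨by dsimp only; linarith [hb2.1], by dsimp only; nlinarith⟩⟩

/-- **Blocking lemma**, vertical edges: the segment from `p` to `v` crosses the relative interior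
of the vertical edge `i` at the point `q`. -/
theorem blocked_vert {R : Set (ℝ × ℝ)} (hR : IsRegion R P.boundary) {i : ZMod n} (h : ¬ P.Hor i)
    {p v q : ℝ × ℝ} (hq : q ∈ segment ℝ (P.pt i) (P.pt (i + 1))) (h0 : q ≠ P.pt i)
    (h1 : q ≠ P.pt (i + 1)) (hqs : q ∈ openSegment ℝ p v) (hpv : p.1 ≠ v.1) :
    ¬ segment ℝ p v ⊆ R ∧ ¬ segment ℝ p v ⊆ closure Rᶜ := by
  obtain ⟨δ, hδ, hnb⟩ := P.exists_nbhd hq h0 h1
  set U : Set (ℝ × ℝ) := Ioo q.1 (q.1 + δ) ×ˢ Ioo (q.2 - δ) (q.2 + δ) with hUdef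
  set V : Set (ℝ × ℝ) := Ioo (q.1 - δ) q.1 ×ˢ Ioo (q.2 - δ) (q.2 + δ) with hVdef
  set N : Set (ℝ × ℝ) := Ioo (q.1 - δ) (q.1 + δ) ×ˢ Ioo (q.2 - δ) (q.2 + δ) with hNdef
  have hqy : q.1 = (P.pt i).1 := ((P.segment_vert h q).1 hq).1
  have habs : ∀ x a : ℝ, a - δ < x → x < a + δ → |x - a| < δ := by
    intro x a h1 h2
    rw [abs_lt]
    constructor <;> linarith
  have hqB : q ∈ P.boundary := mem_iUnion.2 ⟨i, hq⟩
  -- near `q` the segment is in both sides
  obtain ⟨a, b, ha, hb, hab, hqe⟩ := hqs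
  have hq1 : q.2 = a * p.2 + b * v.2 := by rw [← hqe]; rfl
  have hq2 : q.1 = a * p.1 + b * v.1 := by rw [← hqe]; rfl
  have hmove : ∃ ε : ℝ, 0 < ε ∧ ε < a ∧ ε < b ∧ ε * |v.2 - p.2| < δ ∧ ε * |v.1 - p.1| < δ := by
    have hpos1 : 0 < |v.2 - p.2| + 1 := by positivity
    have hpos2 : 0 < |v.1 - p.1| + 1 := by positivity
    refine ⟨min (min (a / 2) (b / 2)) (min (δ / (|v.2 - p.2| + 1)) (δ / (|v.1 - p.1| + 1))) / 2,
      ?_, ?_, ?_, ?_, ?_⟩
    · have : 0 < min (min (a / 2) (b / 2)) (min (δ / (|v.2 - p.2| + 1)) (δ / (|v.1 - p.1| + 1))) := by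
        refine lt_min (lt_min (by linarith) (by linarith)) (lt_min (by positivity) (by positivity))
      linarith
    · have h3 := (min_le_left (min (a / 2) (b / 2))
        (min (δ / (|v.2 - p.2| + 1)) (δ / (|v.1 - p.1| + 1)))).trans (min_le_left _ _)
      linarith
    · have h3 := (min_le_left (min (a / 2) (b / 2))
        (min (δ / (|v.2 - p.2| + 1)) (δ / (|v.1 - p.1| + 1)))).trans (min_le_right _ _)
      linarith
    · have h3 := (min_le_right (min (a / 2) (b / 2))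
        (min (δ / (|v.2 - p.2| + 1)) (δ / (|v.1 - p.1| + 1)))).trans (min_le_left _ _)
      have h4 : min (min (a / 2) (b / 2)) (min (δ / (|v.2 - p.2| + 1)) (δ / (|v.1 - p.1| + 1))) / 2
          * |v.2 - p.2| ≤ δ / (|v.2 - p.2| + 1) / 2 * |v.2 - p.2| := by
        apply mul_le_mul_of_nonneg_right _ (abs_nonneg _)
        linarith
      have h5 : δ / (|v.2 - p.2| + 1) / 2 * |v.2 - p.2| < δ := by
        rw [div_div, div_mul_eq_mul_div, div_lt_iff₀ (by positivity)]
        nlinarith [abs_nonneg (v.2 - p.2)]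
      linarith
    · have h3 := (min_le_right (min (a / 2) (b / 2))
        (min (δ / (|v.2 - p.2| + 1)) (δ / (|v.1 - p.1| + 1)))).trans (min_le_right _ _)
      have h4 : min (min (a / 2) (b / 2)) (min (δ / (|v.2 - p.2| + 1)) (δ / (|v.1 - p.1| + 1))) / 2
          * |v.1 - p.1| ≤ δ / (|v.1 - p.1| + 1) / 2 * |v.1 - p.1| := by
        apply mul_le_mul_of_nonneg_right _ (abs_nonneg _)
        linarith
      have h5 : δ / (|v.1 - p.1| + 1) / 2 * |v.1 - p.1| < δ := by
        rw [div_div, div_mul_eq_mul_div, div_lt_iff₀ (by positivity)]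
        nlinarith [abs_nonneg (v.1 - p.1)]
      linarith
  obtain ⟨ε, hε, hεa, hεb, hε1, hε2⟩ := hmove
  have hz1 : (q.1 + ε * (v.1 - p.1), q.2 + ε * (v.2 - p.2)) ∈ segment ℝ p v := by
    refine ⟨a - ε, b + ε, by linarith, by linarith, by linarith, ?_⟩
    ext
    · simp only [Prod.fst_add, Prod.smul_fst, smul_eq_mul, hq2]; ring
    · simp only [Prod.snd_add, Prod.smul_snd, smul_eq_mul, hq1]; ring
  have hz2 : (q.1 - ε * (v.1 - p.1), q.2 - ε * (v.2 - p.2)) ∈ segment ℝ p v := by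
    refine ⟨a + ε, b - ε, by linarith, by linarith, by linarith, ?_⟩
    ext
    · simp only [Prod.fst_add, Prod.smul_fst, smul_eq_mul, hq2]; ring
    · simp only [Prod.snd_add, Prod.smul_snd, smul_eq_mul, hq1]; ring
  have hb1 : |ε * (v.2 - p.2)| < δ := by rw [abs_mul, abs_of_pos hε]; exact hε1
  have hb2 : |ε * (v.1 - p.1)| < δ := by rw [abs_mul, abs_of_pos hε]; exact hε2
  rw [abs_lt] at hb1 hb2
  have hU : IsPreconnected U := ((convex_Ioo _ _).prod (convex_Ioo _ _)).isPreconnected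
  have hV : IsPreconnected V := ((convex_Ioo _ _).prod (convex_Ioo _ _)).isPreconnected
  have hUB : Disjoint U P.boundary := by
    rw [disjoint_left]
    rintro z ⟨hz1, hz2⟩ hz
    have h3 := hnb z (habs _ _ (by linarith [hz1.1]) hz1.2) (habs _ _ hz2.1 hz2.2) hz
    have h4 := ((P.segment_vert h z).1 h3).1
    rw [← hqy] at h4
    exact (ne_of_gt hz1.1) h4
  have hVB : Disjoint V P.boundary := by
    rw [disjoint_left]
    rintro z ⟨hz1, hz2⟩ hz
    have h3 := hnb z (habs _ _ hz1.1 (by linarith [hz1.2])) (habs _ _ hz2.1 hz2.2) hz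
    have h4 := ((P.segment_vert h z).1 h3).1
    rw [← hqy] at h4
    exact (ne_of_lt hz1.2) h4
  -- the middle part of `N` lies on the edge, after shrinking
  have hqx : q.2 ∈ Ioo (min (P.pt i).2 (P.pt (i + 1)).2) (max (P.pt i).2 (P.pt (i + 1)).2) := by
    have h3 := ((P.segment_vert h q).1 hq).2
    rw [uIcc, mem_Icc] at h3
    change min _ _ ≤ _ ∧ _ ≤ max _ _ at h3
    have h4 : q.2 ≠ (P.pt i).2 := fun h' => h0 (Prod.ext hqy h')
    have h5 : q.2 ≠ (P.pt (i + 1)).2 := fun h' => h1 (Prod.ext (hqy.trans (P.vert_eq h)) h')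
    rcases le_total (P.pt i).2 (P.pt (i + 1)).2 with h6 | h6
    · rw [min_eq_left h6, max_eq_right h6]
      rw [min_eq_left h6, max_eq_right h6] at h3
      exact ⟨lt_of_le_of_ne h3.1 (Ne.symm h4), lt_of_le_of_ne h3.2 h5⟩
    · rw [min_eq_right h6, max_eq_left h6]
      rw [min_eq_right h6, max_eq_left h6] at h3
      exact ⟨lt_of_le_of_ne h3.1 (Ne.symm h5), lt_of_le_of_ne h3.2 h4⟩
  obtain ⟨M, hMdef⟩ : ∃ M : Set (ℝ × ℝ), M = N ∩ (univ ×ˢ Ioo (min (P.pt i).2 (P.pt (i + 1)).2)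
    (max (P.pt i).2 (P.pt (i + 1)).2)) := ⟨_, rfl⟩
  have hMo : IsOpen M := by
    rw [hMdef]
    exact (isOpen_Ioo.prod isOpen_Ioo).inter (isOpen_univ.prod isOpen_Ioo)
  have hqM : q ∈ M := by
    rw [hMdef]
    exact ⟨⟨⟨by linarith, by linarith⟩, ⟨by linarith, by linarith⟩⟩, mem_univ _, hqx⟩
  have hMU : M ⊆ U ∪ V ∪ P.boundary := by
    rw [hMdef]
    rintro z ⟨⟨hz1, hz2⟩, -, hz3⟩
    rcases lt_trichotomy z.1 q.1 with h3 | h3 | h3
    · exact Or.inl (Or.inr ⟨⟨hz1.1, h3⟩, hz2⟩)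
    · refine Or.inr (mem_iUnion.2 ⟨i, (P.segment_vert h z).2 ⟨h3.trans hqy, ?_⟩⟩)
      rw [uIcc, mem_Icc]
      exact ⟨hz3.1.le, hz3.2.le⟩
    · exact Or.inl (Or.inl ⟨⟨h3, hz1.2⟩, hz2⟩)
  rcases lt_or_gt_of_ne hpv with h3 | h3
  · refine not_both hR hqB hMo hqM hU hV hUB hVB hMU ⟨_, hz1, ?_⟩ ⟨_, hz2, ?_⟩
    · exact ⟨⟨by dsimp only; nlinarith, by dsimp only; linarith [hb2.2]⟩,
        ⟨by dsimp only; linarith [hb1.1], by dsimp only; linarith [hb1.2]⟩⟩
    · exact ⟨⟨by dsimp only; linarith [hb2.2], by dsimp only; nlinarith⟩,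
        ⟨by dsimp only; linarith [hb1.2], by dsimp only; linarith [hb1.1]⟩⟩
  · refine not_both hR hqB hMo hqM hU hV hUB hVB hMU ⟨_, hz2, ?_⟩ ⟨_, hz1, ?_⟩
    · exact ⟨⟨by dsimp only; nlinarith, by dsimp only; linarith [hb2.1]⟩,
        ⟨by dsimp only; linarith [hb1.2], by dsimp only; linarith [hb1.1]⟩⟩
    · exact ⟨⟨by dsimp only; linarith [hb2.1], by dsimp only; nlinarith⟩,
        ⟨by dsimp only; linarith [hb1.1], by dsimp only; linarith [hb1.2]⟩⟩

end OrthPolygon

end Pool.Agent.Helper67.PY
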