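import Pool.Agent.Helper67.PY.RSys

/-!
# Cells of the grid and guarding
-/

namespace Pool.Agent.Helper67.PY

open Set

/-- The closure of the interior of `V` is covered by the closed unit cells whose open cell meets the
interior of `V`. -/
theorem exists_cell (m : ℕ) (X Y : ℕ → ℝ)
    {V : Set (ℝ × ℝ)} {p : ℝ × ℝ} (hp : p ∈ closure (interior V)) :
    ∃ i j, i ≤ m ∧ j ≤ m ∧ p ∈ closure (OBox m X Y j (j + 1) i (i + 1)) ∧
      (OBox m X Y j (j + 1) i (i + 1) ∩ interior V).Nonempty := by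
  classical
  let S1 : Set ℝ := X '' (Icc 1 m : Set ℕ)
  let S2 : Set ℝ := Y '' (Icc 1 m : Set ℕ)
  have hS1 : S1.Countable := ((Set.finite_Icc 1 m).image X).countable
  have hS2 : S2.Countable := ((Set.finite_Icc 1 m).image Y).countable
  have hD : Dense (S1ᶜ ×ˢ S2ᶜ) := (hS1.dense_compl ℝ).prod (hS2.dense_compl ℝ)
  have h1 : interior V ⊆ closure (interior V ∩ (S1ᶜ ×ˢ S2ᶜ)) :=
    hD.open_subset_closure_inter isOpen_interior
  have h2 : p ∈ closure (interior V ∩ (S1ᶜ ×ˢ S2ᶜ)) := by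
    have := closure_mono h1 hp
    rwa [closure_closure] at this
  have h3 : interior V ∩ (S1ᶜ ×ˢ S2ᶜ) ⊆
      ⋃ k : Fin (m + 1) × Fin (m + 1), interior V ∩
        OBox m X Y k.2.1 (k.2.1 + 1) k.1.1 (k.1.1 + 1) := by
    rintro q ⟨hq1, hq2, hq3⟩
    obtain ⟨j, hj, hjm⟩ := exists_unit m X q.1 (fun k hk1 hk2 he => hq2 ⟨k, ⟨hk1, hk2⟩, he.symm⟩)
    obtain ⟨i, hi, him⟩ := exists_unit m Y q.2 (fun k hk1 hk2 he => hq3 ⟨k, ⟨hk1, hk2⟩, he.symm⟩)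
    refine mem_iUnion.2 ⟨(⟨i, by omega⟩, ⟨j, by omega⟩), hq1, ?_⟩
    exact ⟨hjm, him⟩
  have h4 := closure_mono h3 h2
  rw [closure_iUnion_of_finite] at h4
  obtain ⟨⟨i, j⟩, hk⟩ := mem_iUnion.1 h4
  refine ⟨i.1, j.1, by omega, by omega, ?_, ?_⟩
  · exact closure_mono inter_subset_right hk
  · have hne : (interior V ∩ OBox m X Y j.1 (j.1 + 1) i.1 (i.1 + 1)).Nonempty := by
      rw [← closure_nonempty_iff]
      exact ⟨p, hk⟩
    rwa [inter_comm] at hne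

theorem OI_mono {m : ℕ} {X : ℕ → ℝ} (hX : ∀ a b, 1 ≤ a → a ≤ b → b ≤ m → X a ≤ X b)
    {l l' r' r : ℕ} (hl : l ≤ l') (hr : r' ≤ r) (hl' : l' ≤ m) (hr' : 1 ≤ r') :
    OI m X l' r' ⊆ OI m X l r := by
  intro t ht
  refine ⟨fun h1 => ?_, fun h1 => ?_⟩
  · exact lt_of_le_of_lt (hX l l' h1 hl hl') (ht.1 (le_trans h1 hl))
  · exact lt_of_lt_of_le (ht.2 (le_trans hr h1)) (hX r' r hr' hr h1)

theorem OBox_mono {m : ℕ} {X Y : ℕ → ℝ} (hX : ∀ a b, 1 ≤ a → a ≤ b → b ≤ m → X a ≤ X b)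
    (hY : ∀ a b, 1 ≤ a → a ≤ b → b ≤ m → Y a ≤ Y b)
    {l r b t i j : ℕ} (h1 : l ≤ j) (h2 : j + 1 ≤ r) (h3 : b ≤ i) (h4 : i + 1 ≤ t)
    (hi : i ≤ m) (hj : j ≤ m) :
    OBox m X Y j (j + 1) i (i + 1) ⊆ OBox m X Y l r b t :=
  prod_mono (OI_mono hX h1 h2 hj (by omega)) (OI_mono hY h3 h4 hi (by omega))

/-- **Guarding lemma.**  `G` is a set of points.  If every unit cell is contained in a box (in
ranks) which is disjoint from the curve `C` and contains a point of `G` in its closure, then every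
closed regular set `V` with frontier in `C` is guarded by `G`. -/
theorem guard_of_boxes {m : ℕ} {X Y : ℕ → ℝ}
    (hX : ∀ a b, 1 ≤ a → a ≤ b → b ≤ m → X a ≤ X b)
    (hY : ∀ a b, 1 ≤ a → a ≤ b → b ≤ m → Y a ≤ Y b)
    {C : Set (ℝ × ℝ)} {G : Set (ℝ × ℝ)}
    (hG : ∀ i j, i ≤ m → j ≤ m → ∃ g ∈ G, ∃ l r b t, l ≤ j ∧ j + 1 ≤ r ∧ b ≤ i ∧ i + 1 ≤ t ∧
      g.1 ∈ CI m X l r ∧ g.2 ∈ CI m Y b t ∧ Disjoint (OBox m X Y l r b t) C)
    {V : Set (ℝ × ℝ)} (hV : IsClosed V) (hreg : V ⊆ closure (interior V)) (hfr : frontier V ⊆ C)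
    {p : ℝ × ℝ} (hp : p ∈ V) : ∃ g ∈ G, segment ℝ g p ⊆ V := by
  obtain ⟨i, j, hi, hj, hpc, hmeet⟩ := exists_cell m X Y (hreg hp)
  obtain ⟨g, hg, l, r, b, t, h1, h2, h3, h4, h5, h6, h7⟩ := hG i j hi hj
  have hsub := OBox_mono hX hY h1 h2 h3 h4 hi hj
  refine ⟨g, hg, segment_subset_of_box (l := l) (r := r) (b := b) (t := t) hV
    (h7.mono_right hfr) (hmeet.mono (inter_subset_inter_left _ hsub)) h5 h6
    (closure_mono hsub hpc)⟩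

end Pool.Agent.Helper67.PY
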