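import Pool.Agent.Helper67.PY.Polygon
import Pool.Agent.Helper68.PY.Fr0

/-!
# From frames to orthogonal polygons
-/

namespace Pool.Agent.Helper67.PY

open Set Pool.Agent.Helper68.PY

namespace RSys

variable {H W : Type} (Q : RSys H W) [Fintype H] [Fintype W] {m : ℕ}
  (hH : Fintype.card H = m) (hW : Fintype.card W = m)

theorem fL_out {h : ℕ} (hh : ¬ (1 ≤ h ∧ h ≤ m)) : Q.fL hH hW h = 0 := by
  unfold fL; rw [dif_neg hh]

theorem fR_out {h : ℕ} (hh : ¬ (1 ≤ h ∧ h ≤ m)) : Q.fR hH hW h = m + 1 := by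
  unfold fR; rw [dif_neg hh]

theorem fb_out {h : ℕ} (hh : ¬ (1 ≤ h ∧ h ≤ m)) : Q.fb hH hW h = 0 := by
  unfold fb; rw [dif_neg hh]

theorem ft_out {h : ℕ} (hh : ¬ (1 ≤ h ∧ h ≤ m)) : Q.ft hH hW h = m + 1 := by
  unfold ft; rw [dif_neg hh]

theorem fR_lt (h : ℕ) : Q.fR hH hW h < m + 2 := by
  by_cases hh : 1 ≤ h ∧ h ≤ m
  · have := (Q.f_range hH hW hh.1 hh.2).2.1
    omega
  · rw [Q.fR_out hH hW hh]; omega

theorem ft_lt (h : ℕ) : Q.ft hH hW h < m + 2 := by
  by_cases hh : 1 ≤ h ∧ h ≤ m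
  · have := (Q.f_range hH hW hh.1 hh.2).2.2.2
    omega
  · rw [Q.ft_out hH hW hh]; omega

/-- The frame of a curve system. -/
noncomputable def toFr0 (hm : 1 ≤ m) : Fr0 (m + 2) where
  L := Q.fL hH hW
  R := Q.fR hH hW
  D := Q.fb hH hW
  T := Q.ft hH hW
  hM := by omega
  LR := fun i _ => Q.fL_lt_fR hH hW i
  R_lt := fun i _ => Q.fR_lt hH hW i
  DT := fun j _ => Q.fb_lt_ft hH hW j
  T_lt := fun j _ => Q.ft_lt hH hW j
  low := by
    intro j hj
    by_cases hh : 1 ≤ j ∧ j ≤ m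
    · have h1 := Q.f_range hH hW hh.1 hh.2
      have h2 := Q.fb_lt_ft hH hW j
      exact (Q.f_inc hH hW (h := Q.fb hH hW j) (j := j) h1.2.2.1 (by omega) hh.1 hh.2).2 (Or.inl rfl)
    · rw [Q.fb_out hH hW hh, Q.fL_out hH hW (by omega), Q.fR_out hH hW (by omega)]
      omega
  high := by
    intro j hj
    by_cases hh : 1 ≤ j ∧ j ≤ m
    · have h1 := Q.f_range hH hW hh.1 hh.2
      have h2 := Q.fb_lt_ft hH hW j
      exact (Q.f_inc hH hW (h := Q.ft hH hW j) (j := j) (by omega) h1.2.2.2 hh.1 hh.2).2 (Or.inr rfl)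
    · rw [Q.ft_out hH hW hh, Q.fL_out hH hW (by omega), Q.fR_out hH hW (by omega)]
      omega
  left := by
    intro i hi
    by_cases hh : 1 ≤ i ∧ i ≤ m
    · have h1 := Q.f_range hH hW hh.1 hh.2
      have h2 := Q.fL_lt_fR hH hW i
      exact (Q.f_inc hH hW (h := i) (j := Q.fL hH hW i) hh.1 hh.2 h1.1 (by omega)).1 (Or.inl rfl)
    · rw [Q.fL_out hH hW hh, Q.fb_out hH hW (by omega), Q.ft_out hH hW (by omega)]
      omega
  right := by
    intro i hi
    by_cases hh : 1 ≤ i ∧ i ≤ m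
    · have h1 := Q.f_range hH hW hh.1 hh.2
      have h2 := Q.fL_lt_fR hH hW i
      exact (Q.f_inc hH hW (h := i) (j := Q.fR hH hW i) hh.1 hh.2 (by omega) h1.2.1).1 (Or.inr rfl)
    · rw [Q.fR_out hH hW hh, Q.fb_out hH hW (by omega), Q.ft_out hH hW (by omega)]
      omega
  nc := by
    intro i hi j hj h1 h2 h3
    have h4 := Q.ft_lt hH hW j
    have h5 := Q.fR_lt hH hW i
    have hi' : 1 ≤ i ∧ i ≤ m := by omega
    have hj' : 1 ≤ j ∧ j ≤ m := by omega
    exact Q.f_noncross hH hW hi'.1 hi'.2 hj'.1 hj'.2 ⟨h3.1, h3.2, h1, h2⟩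
  L0 := Q.fL_out hH hW (by omega)
  R0 := by rw [Q.fR_out hH hW (by omega)]; omega
  L1 := Q.fL_out hH hW (by omega)
  R1 := by rw [Q.fR_out hH hW (by omega)]; omega

/-- Guards of the frame are guards in the plane. -/
theorem guard_of_frame (hm : 1 ≤ m) (S : Finset (ℕ × ℕ)) (hS : (Q.toFr0 hH hW hm).Inner S)
    (hG : (Q.toFr0 hH hW hm).Guards S) {V : Set (ℝ × ℝ)} (hV : IsClosed V)
    (hreg : V ⊆ closure (interior V)) (hfr : frontier V ⊆ Q.curve) {p : ℝ × ℝ} (hp : p ∈ V) :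
    ∃ v ∈ S, segment ℝ (Q.fX hW v.1, Q.fY hH v.2) p ⊆ V := by
  refine Q.guard_of_ranks hH hW S ?_ ?_ hV hreg hfr hp
  · intro v hv
    obtain ⟨h1, h2, h3⟩ := hS v hv
    have h4 := Q.f_range hH hW (h := v.2) (by omega) (by omega)
    have h5 := Q.fL_lt_fR hH hW v.2
    rcases h3 with h3 | h3
    · have h6 : v.1 = Q.fL hH hW v.2 := h3
      omega
    · have h6 : v.1 = Q.fR hH hW v.2 := h3
      omega
  · intro i j hi hj
    obtain ⟨v, hv, l, r, b, t, h1, h2, h3, h4, h5, h6, h7, h8, h9, h10, h11, h12⟩ :=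
      hG j i (by omega) (by omega)
    refine ⟨v, hv, l, r, b, t, h1, h2, h3, h4, h7, h8, h9, h10, ?_, ?_⟩
    · intro e e1 e2 e3 e4
      exact h11 e (by omega) e3 e4
    · intro e e1 e2 e3 e4
      exact h12 e (by omega) e3 e4

end RSys

namespace OrthPolygon

variable {n : ℕ} (P : OrthPolygon n)

theorem lw_cases (i : P.HE) : (P.pt ((P.sys.lw i).1)).1 = (P.pt i.1).1 ∨
    (P.pt ((P.sys.lw i).1)).1 = (P.pt (i.1 + 1)).1 := by
  classical
  by_cases h : (P.pt i.1).1 < (P.pt (i.1 + 1)).1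
  · left
    have : P.sys.lw i = P.predW i := by simp [sys, h]
    rw [this, P.x_predW]
  · right
    have : P.sys.lw i = P.succW i := by simp [sys, h]
    rw [this, P.x_succW]

theorem rw_cases (i : P.HE) : (P.pt ((P.sys.rw i).1)).1 = (P.pt i.1).1 ∨
    (P.pt ((P.sys.rw i).1)).1 = (P.pt (i.1 + 1)).1 := by
  classical
  by_cases h : (P.pt i.1).1 < (P.pt (i.1 + 1)).1
  · right
    have : P.sys.rw i = P.succW i := by simp [sys, h]
    rw [this, P.x_succW]
  · left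
    have : P.sys.rw i = P.predW i := by simp [sys, h]
    rw [this, P.x_predW]

theorem hedge_eq (i : P.HE) : P.sys.hedge i = segment ℝ (P.pt i.1) (P.pt (i.1 + 1)) := by
  classical
  ext p
  rw [P.segment_hor i.2, mem_uIcc]
  by_cases h : (P.pt i.1).1 < (P.pt (i.1 + 1)).1
  · have e1 : P.sys.lw i = P.predW i := by simp [sys, h]
    have e2 : P.sys.rw i = P.succW i := by simp [sys, h]
    have hx1 : P.sys.x (P.sys.lw i) = (P.pt i.1).1 := by rw [e1]; exact P.x_predW i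
    have hx2 : P.sys.x (P.sys.rw i) = (P.pt (i.1 + 1)).1 := by rw [e2]; exact P.x_succW i
    unfold RSys.hedge
    rw [mem_ofPred_eq, hx1, hx2]
    constructor
    · rintro ⟨a1, a2, a3⟩
      exact ⟨Or.inl ⟨a1, a2⟩, a3⟩
    · rintro ⟨a1 | a1, a3⟩
      · exact ⟨a1.1, a1.2, a3⟩
      · exact absurd (lt_of_lt_of_le h (a1.1.trans a1.2)) (lt_irrefl _)
  · have e1 : P.sys.lw i = P.succW i := by simp [sys, h]
    have e2 : P.sys.rw i = P.predW i := by simp [sys, h]
    have hx1 : P.sys.x (P.sys.lw i) = (P.pt (i.1 + 1)).1 := by rw [e1]; exact P.x_succW i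
    have hx2 : P.sys.x (P.sys.rw i) = (P.pt i.1).1 := by rw [e2]; exact P.x_predW i
    unfold RSys.hedge
    rw [mem_ofPred_eq, hx1, hx2]
    have h' := not_lt.1 h
    constructor
    · rintro ⟨a1, a2, a3⟩
      exact ⟨Or.inr ⟨a1, a2⟩, a3⟩
    · rintro ⟨a1 | a1, a3⟩
      · exact ⟨h'.trans a1.1, a1.2.trans h', a3⟩
      · exact ⟨a1.1, a1.2, a3⟩

theorem wall_eq (j : P.WE) : P.sys.wall j = segment ℝ (P.pt j.1) (P.pt (j.1 + 1)) := by
  classical
  ext p
  rw [P.segment_vert j.2, mem_uIcc]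
  by_cases h : (P.pt j.1).2 < (P.pt (j.1 + 1)).2
  · have e1 : P.sys.be j = P.predH j := by simp [sys, h]
    have e2 : P.sys.te j = P.succH j := by simp [sys, h]
    have hx1 : P.sys.y (P.sys.be j) = (P.pt j.1).2 := by rw [e1]; exact P.y_predH j
    have hx2 : P.sys.y (P.sys.te j) = (P.pt (j.1 + 1)).2 := by rw [e2]; exact P.y_succH j
    unfold RSys.wall
    rw [mem_ofPred_eq, hx1, hx2]
    constructor
    · rintro ⟨a1, a2, a3⟩
      exact ⟨a1, Or.inl ⟨a2, a3⟩⟩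
    · rintro ⟨a3, a1 | a1⟩
      · exact ⟨a3, a1.1, a1.2⟩
      · exact absurd (lt_of_lt_of_le h (a1.1.trans a1.2)) (lt_irrefl _)
  · have e1 : P.sys.be j = P.succH j := by simp [sys, h]
    have e2 : P.sys.te j = P.predH j := by simp [sys, h]
    have hx1 : P.sys.y (P.sys.be j) = (P.pt (j.1 + 1)).2 := by rw [e1]; exact P.y_succH j
    have hx2 : P.sys.y (P.sys.te j) = (P.pt j.1).2 := by rw [e2]; exact P.y_predH j
    unfold RSys.wall
    rw [mem_ofPred_eq, hx1, hx2]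
    have h' := not_lt.1 h
    constructor
    · rintro ⟨a1, a2, a3⟩
      exact ⟨a1, Or.inr ⟨a2, a3⟩⟩
    · rintro ⟨a3, a1 | a1⟩
      · exact ⟨a3, h'.trans a1.1, a1.2.trans h'⟩
      · exact ⟨a3, a1.1, a1.2⟩

theorem curve_eq : P.sys.curve = P.boundary := by
  ext p
  constructor
  · rintro (hp | hp)
    · obtain ⟨i, hi⟩ := mem_iUnion.1 hp
      rw [P.hedge_eq] at hi
      exact mem_iUnion.2 ⟨i.1, hi⟩
    · obtain ⟨i, hi⟩ := mem_iUnion.1 hp
      rw [P.wall_eq] at hi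
      exact mem_iUnion.2 ⟨i.1, hi⟩
  · intro hp
    obtain ⟨i, hi⟩ := mem_iUnion.1 hp
    by_cases h : P.Hor i
    · left
      refine mem_iUnion.2 ⟨⟨i, h⟩, ?_⟩
      rw [P.hedge_eq]
      exact hi
    · right
      refine mem_iUnion.2 ⟨⟨i, h⟩, ?_⟩
      rw [P.wall_eq]
      exact hi

theorem region_eq : P.sys.inside = P.region := by
  unfold RSys.inside region
  rw [P.curve_eq]

/-- **Reduction of the prison yard problem to frames.** -/
theorem guards_of_frames (C : ℕ)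
    (hcomb : ∀ M (F : Fr0 M), ∃ S : Finset (ℕ × ℕ), F.Inner S ∧ F.Guards S ∧
      3 * S.card ≤ 2 * M + C) (n : ℕ) (P : OrthPolygon n) :
    ∃ S : Finset (ZMod n), 3 * S.card ≤ n + (C + 4) ∧
      (∀ p ∈ P.region, ∃ i ∈ S, segment ℝ (P.pt i) p ⊆ P.region) ∧
      (∀ p ∈ P.exterior, ∃ i ∈ S, segment ℝ (P.pt i) p ⊆ P.exterior) := by
  classical
  have : NeZero n := ⟨P.pos.ne'⟩
  have : Fintype P.HE := Fintype.ofFinite _
  have : Fintype P.WE := Fintype.ofFinite _
  -- the two classes of edges have the same number of elements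
  have hcardHW : Fintype.card P.HE = Fintype.card P.WE := by
    refine Fintype.card_congr ⟨P.succW, P.predH, ?_, ?_⟩
    · intro i; ext; simp [succW, predH]
    · intro j; ext; simp [succW, predH]
  have hsum : Fintype.card P.HE + Fintype.card P.WE = n := by
    have h1 := Fintype.card_congr (Equiv.sumCompl (fun i : ZMod n => P.Hor i))
    rw [Fintype.card_sum, ZMod.card] at h1
    exact h1
  obtain ⟨m, hmdef⟩ : ∃ m, m = Fintype.card P.HE := ⟨_, rfl⟩
  have hH : Fintype.card P.HE = m := hmdef.symm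
  have hW : Fintype.card P.WE = m := by rw [← hcardHW]; exact hH
  have hnm : n = 2 * m := by omega
  have hm : 1 ≤ m := by
    have := P.pos
    omega
  obtain ⟨S, hin, hgu, hcard⟩ := hcomb (m + 2) (P.sys.toFr0 hH hW hm)
  -- vertices
  have hvert : ∀ v ∈ S, ∃ k : ZMod n, P.pt k = (P.sys.fX hW v.1, P.sys.fY hH v.2) := by
    intro v hv
    obtain ⟨h1, h2, h3⟩ := hin v hv
    obtain ⟨i, hi⟩ := P.sys.rh_surj hH (h := v.2) (by omega) (by omega)
    have hY : P.sys.fY hH v.2 = (P.pt i.1).2 := by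
      rw [← hi, P.sys.fY_rh]; rfl
    have hX : P.sys.fX hW v.1 = (P.pt i.1).1 ∨ P.sys.fX hW v.1 = (P.pt (i.1 + 1)).1 := by
      rcases h3 with h3 | h3
      · have h6 : v.1 = P.sys.rv hW (P.sys.lw i) := by
          rw [← P.sys.fL_rh hH hW, hi]; exact h3
        rw [h6, P.sys.fX_rv]
        exact P.lw_cases i
      · have h6 : v.1 = P.sys.rv hW (P.sys.rw i) := by
          rw [← P.sys.fR_rh hH hW, hi]; exact h3
        rw [h6, P.sys.fX_rv]
        exact P.rw_cases i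
    rcases hX with hX | hX
    · exact ⟨i.1, Prod.ext hX.symm hY.symm⟩
    · exact ⟨i.1 + 1, Prod.ext hX.symm (by rw [hY]; exact i.2.symm)⟩
  choose! f hf using hvert
  refine ⟨S.image f, ?_, ?_, ?_⟩
  · have := Finset.card_image_le (s := S) (f := f)
    omega
  · intro p hp
    have hfacts := P.sys.inside_facts
    rw [P.region_eq] at hfacts
    obtain ⟨v, hv, hseg⟩ := P.sys.guard_of_frame hH hW hm S hin hgu hfacts.1 hfacts.2.1 hfacts.2.2 hp
    refine ⟨f v, Finset.mem_image_of_mem f hv, ?_⟩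
    rw [hf v hv]
    exact hseg
  · intro p hp
    have hfacts := P.sys.outside_facts
    rw [P.region_eq] at hfacts
    obtain ⟨v, hv, hseg⟩ := P.sys.guard_of_frame hH hW hm S hin hgu isClosed_closure hfacts.2.1
      hfacts.2.2 hp
    refine ⟨f v, Finset.mem_image_of_mem f hv, ?_⟩
    rw [hf v hv]
    exact hseg

end OrthPolygon

end Pool.Agent.Helper67.PY
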