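import Pool.Agent.Helper67.PY.Parity

/-!
# The two sides of a rectilinear curve system
-/

namespace Pool.Agent.Helper67.PY

open Set

namespace RSys

variable {H W : Type} (Q : RSys H W) [Fintype H] [Fintype W]

/-- Far away the parity is zero. -/
theorem par_far {R : ℝ} (hx : ∀ j, |Q.x j| ≤ R) (hy : ∀ i, |Q.y i| ≤ R) {p : ℝ × ℝ}
    (hp : R < |p.1| ∨ R < |p.2|) : Q.par p = 0 := by
  classical
  have e2 : (1 : ZMod 2) + 1 = 0 := by decide
  rcases hp with h | h
  · rcases lt_abs.1 h with h | h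
    · unfold par
      refine Finset.sum_eq_zero (fun i _ => ?_)
      have h1 : Q.x (Q.lw i) ≤ p.1 := by linarith [(abs_le.1 (hx (Q.lw i))).2]
      have h2 : Q.x (Q.rw i) ≤ p.1 := by linarith [(abs_le.1 (hx (Q.rw i))).2]
      by_cases h3 : p.2 < Q.y i <;> simp [h1, h2, h3, e2]
    · unfold par
      refine Finset.sum_eq_zero (fun i _ => ?_)
      have h1 : ¬ Q.x (Q.lw i) ≤ p.1 := by
        intro h'
        linarith [(abs_le.1 (hx (Q.lw i))).1]
      have h2 : ¬ Q.x (Q.rw i) ≤ p.1 := by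
        intro h'
        linarith [(abs_le.1 (hx (Q.rw i))).1]
      simp [h1, h2]
  · rcases lt_abs.1 h with h | h
    · unfold par
      refine Finset.sum_eq_zero (fun i _ => ?_)
      have h1 : ¬ p.2 < Q.y i := by
        intro h'
        linarith [(abs_le.1 (hy i)).2]
      simp [h1]
    · rw [par_eq_walls]
      refine Finset.sum_eq_zero (fun j _ => ?_)
      have h1 : p.2 < Q.y (Q.be j) := by linarith [(abs_le.1 (hy (Q.be j))).1]
      have h2 : p.2 < Q.y (Q.te j) := by linarith [(abs_le.1 (hy (Q.te j))).1]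
      by_cases h3 : Q.x j ≤ p.1 <;> simp [h1, h2, h3, e2]

theorem exists_bound : ∃ R : ℝ, (∀ j, |Q.x j| ≤ R) ∧ (∀ i, |Q.y i| ≤ R) := by
  classical
  refine ⟨∑ j, |Q.x j| + ∑ i, |Q.y i|, fun j => ?_, fun i => ?_⟩
  · have h1 : |Q.x j| ≤ ∑ j, |Q.x j| :=
      Finset.single_le_sum (f := fun j => |Q.x j|) (fun j _ => abs_nonneg _) (Finset.mem_univ j)
    have h2 : 0 ≤ ∑ i, |Q.y i| := Finset.sum_nonneg (fun i _ => abs_nonneg _)
    linarith
  · have h1 : |Q.y i| ≤ ∑ i, |Q.y i| :=
      Finset.single_le_sum (f := fun i => |Q.y i|) (fun j _ => abs_nonneg _) (Finset.mem_univ i)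
    have h2 : 0 ≤ ∑ j, |Q.x j| := Finset.sum_nonneg (fun i _ => abs_nonneg _)
    linarith

/-- The points of odd parity lie in bounded components of the complement of the curve. -/
theorem odd_bounded {p : ℝ × ℝ} (hpar : Q.par p = 1) :
    Bornology.IsBounded (connectedComponentIn Q.curveᶜ p) := by
  by_cases hp : p ∈ Q.curveᶜ
  · obtain ⟨R, hx, hy⟩ := Q.exists_bound
    refine (Metric.isBounded_closedBall (x := ((0 : ℝ), (0 : ℝ))) (r := R)).subset ?_
    intro q hq
    have h1 : Q.par p = Q.par q :=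
      Q.par_const isPreconnected_connectedComponentIn
        (fun z hz => connectedComponentIn_subset _ _ hz) (mem_connectedComponentIn hp) hq
    rw [Metric.mem_closedBall, Prod.dist_eq]
    by_contra hlt
    rw [not_le, lt_max_iff] at hlt
    have h2 : R < |q.1| ∨ R < |q.2| := by
      rcases hlt with h | h
      · left
        simpa [Real.dist_eq] using h
      · right
        simpa [Real.dist_eq] using h
    have h3 := Q.par_far hx hy h2
    rw [← h1, hpar] at h3
    exact absurd h3 (by decide)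
  · rw [connectedComponentIn_eq_empty hp]
    exact Bornology.isBounded_empty

omit [Fintype W] in
/-- Generic points of horizontal edges are limits of points of both parities. -/
theorem flip_generic (c : ZMod 2) {i : H} {p : ℝ × ℝ} (h1 : Q.x (Q.lw i) < p.1)
    (h2 : p.1 < Q.x (Q.rw i)) (h3 : p.2 = Q.y i) (hg : ∀ j, p.1 ≠ Q.x j) :
    p ∈ closure {q | q ∉ Q.curve ∧ Q.par q = c} := by
  classical
  have e2 : (1 : ZMod 2) + 1 = 0 := by decide
  obtain ⟨δ0, hδ0, hδ⟩ : ∃ δ0 : ℝ, 0 < δ0 ∧ ∀ i', Q.y i' ≠ p.2 → δ0 ≤ |Q.y i' - p.2| := by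
    by_cases hne : (Finset.univ.filter (fun i' => Q.y i' ≠ p.2)).Nonempty
    · obtain ⟨k, hk, hmin⟩ := Finset.exists_min_image _ (fun i' => |Q.y i' - p.2|) hne
      refine ⟨|Q.y k - p.2|, abs_pos.2 (sub_ne_zero.2 (Finset.mem_filter.1 hk).2), fun i' hi' => ?_⟩
      exact hmin i' (Finset.mem_filter.2 ⟨Finset.mem_univ _, hi'⟩)
    · refine ⟨1, one_pos, fun i' hi' => ?_⟩
      exact absurd ⟨i', Finset.mem_filter.2 ⟨Finset.mem_univ _, hi'⟩⟩ hne
  have hoff : ∀ t : ℝ, 0 < |t| → |t| < δ0 → (p.1, p.2 + t) ∉ Q.curve := by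
    intro t ht ht' hc
    rcases hc with hc | hc
    · obtain ⟨i', hi'⟩ := mem_iUnion.1 hc
      have h4 : p.2 + t = Q.y i' := hi'.2.2
      have h5 : Q.y i' ≠ p.2 := by
        intro h5
        have : t = 0 := by linarith
        rw [this, abs_zero] at ht
        exact lt_irrefl _ ht
      have h6 := hδ i' h5
      have h7 : Q.y i' - p.2 = t := by linarith
      rw [h7] at h6
      linarith
    · obtain ⟨j, hj⟩ := mem_iUnion.1 hc
      exact hg j hj.1
  have hflip : ∀ δ : ℝ, 0 < δ → δ < δ0 →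
      Q.par (p.1, p.2 + -δ) = Q.par (p.1, p.2 + δ) + 1 := by
    intro δ hδ1 hδ2
    unfold par
    have hone : (1 : ZMod 2) = ∑ i', (if i' = i then (1 : ZMod 2) else 0) := by simp
    conv_rhs => rw [hone]
    rw [← Finset.sum_add_distrib]
    refine Finset.sum_congr rfl (fun i' _ => ?_)
    dsimp only
    by_cases hii : i' = i
    · subst hii
      have a1 : p.2 + -δ < Q.y i' := by linarith
      have a2 : ¬ p.2 + δ < Q.y i' := by linarith
      have a4 : ¬ Q.x (Q.rw i') ≤ p.1 := not_le.2 h2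
      simp [a1, a2, h1.le, a4]
    · by_cases hy : Q.y i' = p.2
      · have hx := Q.x_lt i'
        rcases Q.hh i i' (Ne.symm hii) (by rw [hy, h3]) with h4 | h4
        · have a3 : ¬ Q.x (Q.lw i') ≤ p.1 := by linarith
          have a4 : ¬ Q.x (Q.rw i') ≤ p.1 := by linarith
          simp [hii, a3, a4]
        · have a3 : Q.x (Q.lw i') ≤ p.1 := by linarith
          have a4 : Q.x (Q.rw i') ≤ p.1 := by linarith
          by_cases b1 : p.2 + -δ < Q.y i' <;> by_cases b2 : p.2 + δ < Q.y i' <;>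
            simp [hii, a3, a4, b1, b2, e2]
      · have h4 := hδ i' hy
        have h5 : (p.2 + -δ < Q.y i') ↔ (p.2 + δ < Q.y i') := by
          rcases lt_abs.1 (lt_of_lt_of_le hδ2 h4) with h6 | h6
          · constructor <;> intro _ <;> linarith
          · constructor <;> intro _ <;> linarith
        simp [hii, h5]
  rw [Metric.mem_closure_iff]
  intro ε hε
  have hm : 0 < min δ0 ε := lt_min hδ0 hε
  have hm1 : min δ0 ε ≤ δ0 := min_le_left _ _
  have hm2 : min δ0 ε ≤ ε := min_le_right _ _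
  set δ := min δ0 ε / 2 with hδdef
  have hδpos : 0 < δ := by positivity
  have hδlt : δ < δ0 := by linarith
  have hδlt' : δ < ε := by linarith
  have hf := hflip δ hδpos hδlt
  have hcase : Q.par (p.1, p.2 + -δ) = c ∨ Q.par (p.1, p.2 + δ) = c := by
    revert hf
    generalize Q.par (p.1, p.2 + -δ) = u
    generalize Q.par (p.1, p.2 + δ) = w
    revert u w c
    decide
  rcases hcase with hc | hc
  · refine ⟨(p.1, p.2 + -δ), ⟨hoff _ (by rw [abs_neg, abs_of_pos hδpos]; exact hδpos)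
      (by rw [abs_neg, abs_of_pos hδpos]; exact hδlt), hc⟩, ?_⟩
    rw [Prod.dist_eq]
    simp only [dist_self]
    rw [Real.dist_eq, max_lt_iff]
    refine ⟨hε, ?_⟩
    rw [show p.2 - (p.2 + -δ) = δ by ring, abs_of_pos hδpos]
    exact hδlt'
  · refine ⟨(p.1, p.2 + δ), ⟨hoff _ (by rw [abs_of_pos hδpos]; exact hδpos)
      (by rw [abs_of_pos hδpos]; exact hδlt), hc⟩, ?_⟩
    rw [Prod.dist_eq]
    simp only [dist_self]
    rw [Real.dist_eq, max_lt_iff]
    refine ⟨hε, ?_⟩
    rw [show p.2 - (p.2 + δ) = -δ by ring, abs_neg, abs_of_pos hδpos]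
    exact hδlt'

theorem flip_hedge (c : ZMod 2) (i : H) :
    Q.hedge i ⊆ closure {q | q ∉ Q.curve ∧ Q.par q = c} := by
  intro p hp
  have hfin : (Set.range Q.x).Countable := (Set.finite_range Q.x).countable
  have hD : Dense (Set.range Q.x)ᶜ := hfin.dense_compl ℝ
  have h1 : Ioo (Q.x (Q.lw i)) (Q.x (Q.rw i)) ⊆
      closure (Ioo (Q.x (Q.lw i)) (Q.x (Q.rw i)) ∩ (Set.range Q.x)ᶜ) :=
    hD.open_subset_closure_inter isOpen_Ioo
  have h2 : p.1 ∈ closure (Ioo (Q.x (Q.lw i)) (Q.x (Q.rw i)) ∩ (Set.range Q.x)ᶜ) := by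
    have h3 := closure_mono h1
    rw [closure_closure, closure_Ioo (Q.x_lt i).ne] at h3
    exact h3 ⟨hp.1, hp.2.1⟩
  have hc : Continuous (fun a : ℝ => (a, Q.y i)) := by fun_prop
  have h4 : (p.1, Q.y i) ∈ closure ((fun a : ℝ => (a, Q.y i)) ''
      (Ioo (Q.x (Q.lw i)) (Q.x (Q.rw i)) ∩ (Set.range Q.x)ᶜ)) :=
    image_closure_subset_closure_image hc ⟨p.1, h2, rfl⟩
  have h5 : (p.1, Q.y i) = p := by
    rw [← hp.2.2]
  rw [h5] at h4
  have h6 : (fun a : ℝ => (a, Q.y i)) '' (Ioo (Q.x (Q.lw i)) (Q.x (Q.rw i)) ∩ (Set.range Q.x)ᶜ) ⊆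
      closure {q | q ∉ Q.curve ∧ Q.par q = c} := by
    rintro _ ⟨a, ⟨ha1, ha2⟩, rfl⟩
    exact Q.flip_generic c (i := i) ha1.1 ha1.2 rfl (fun j hj => ha2 ⟨j, hj.symm⟩)
  have h7 := closure_mono h6 h4
  rwa [closure_closure] at h7

/-- Every point of the curve is a limit of points of both parities. -/
theorem flip (c : ZMod 2) : Q.curve ⊆ closure {q | q ∉ Q.curve ∧ Q.par q = c} := by
  rintro p (hp | hp)
  · obtain ⟨i, hi⟩ := mem_iUnion.1 hp
    exact Q.flip_hedge c i hi
  · obtain ⟨j, hj⟩ := mem_iUnion.1 hp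
    have h1 : p.swap ∈ Q.swap.hedge j := ⟨hj.2.1, hj.2.2, hj.1⟩
    have h2 := Q.swap.flip_hedge c j h1
    have h3 : {q | q ∉ Q.swap.curve ∧ Q.swap.par q = c} =
        Prod.swap ⁻¹' {q | q ∉ Q.curve ∧ Q.par q = c} := by
      ext q
      simp only [mem_ofPred_eq, mem_preimage, Q.swap_curve, Q.swap_par]
    rw [h3] at h2
    have h4 : p ∈ Prod.swap '' closure (Prod.swap ⁻¹' {q | q ∉ Q.curve ∧ Q.par q = c}) :=
      ⟨p.swap, h2, Prod.swap_swap p⟩
    have h5 := image_closure_subset_closure_image continuous_swap h4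
    rwa [image_preimage_eq _ Prod.swap_surjective] at h5

/-- The closed region bounded by the curve: the curve and all bounded components of its
complement. -/
def inside : Set (ℝ × ℝ) :=
  Q.curve ∪ {p | p ∉ Q.curve ∧ Bornology.IsBounded (connectedComponentIn Q.curveᶜ p)}

omit [Fintype H] [Fintype W] in
theorem isOpen_bounded_comp {C : Set (ℝ × ℝ)} (hC : IsClosed C) (B : Set (ℝ × ℝ) → Prop) :
    IsOpen {p | p ∉ C ∧ B (connectedComponentIn Cᶜ p)} := by
  rw [isOpen_iff_mem_nhds]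
  rintro p ⟨hp1, hp2⟩
  have hmem : connectedComponentIn Cᶜ p ∈ nhds p :=
    (hC.isOpen_compl.connectedComponentIn).mem_nhds (mem_connectedComponentIn hp1)
  filter_upwards [hmem] with q hq
  refine ⟨connectedComponentIn_subset _ _ hq, ?_⟩
  rw [← connectedComponentIn_eq hq]
  exact hp2

theorem inside_facts : IsClosed Q.inside ∧ Q.inside ⊆ closure (interior Q.inside) ∧
    frontier Q.inside ⊆ Q.curve := by
  have hC := Q.isClosed_curve
  have ho1 := isOpen_bounded_comp hC (fun S => Bornology.IsBounded S)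
  have ho2 := isOpen_bounded_comp hC (fun S => ¬ Bornology.IsBounded S)
  have hcompl : Q.insideᶜ = {p | p ∉ Q.curve ∧ ¬ Bornology.IsBounded (connectedComponentIn Q.curveᶜ p)} := by
    ext p
    simp only [inside, mem_compl_iff, mem_union, mem_ofPred_eq]
    tauto
  have hcl : IsClosed Q.inside := by
    rw [← isOpen_compl_iff, hcompl]
    exact ho2
  have hin : {p | p ∉ Q.curve ∧ Bornology.IsBounded (connectedComponentIn Q.curveᶜ p)} ⊆
      interior Q.inside := interior_maximal subset_union_right ho1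
  refine ⟨hcl, ?_, ?_⟩
  · rintro p (hp | hp)
    · have h1 := Q.flip 1 hp
      refine closure_mono ?_ h1
      rintro q ⟨hq1, hq2⟩
      exact hin ⟨hq1, Q.odd_bounded hq2⟩
    · exact subset_closure (hin hp)
  · intro p hp
    rw [hcl.frontier_eq] at hp
    by_contra hpc
    rcases hp.1 with h | h
    · exact hpc h
    · exact hp.2 (hin h)

theorem outside_facts : Q.insideᶜ ⊆ interior (closure Q.insideᶜ) ∧
    closure Q.insideᶜ ⊆ closure (interior (closure Q.insideᶜ)) ∧
    frontier (closure Q.insideᶜ) ⊆ Q.curve := by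
  have h1 : Q.insideᶜ ⊆ interior (closure Q.insideᶜ) :=
    interior_maximal subset_closure Q.inside_facts.1.isOpen_compl
  refine ⟨h1, closure_mono h1, ?_⟩
  intro p hp
  rw [isClosed_closure.frontier_eq] at hp
  by_contra hpc
  have hC := Q.isClosed_curve
  have ho1 := isOpen_bounded_comp hC (fun S => Bornology.IsBounded S)
  by_cases hb : Bornology.IsBounded (connectedComponentIn Q.curveᶜ p)
  · have h2 := mem_closure_iff.1 hp.1 _ ho1 ⟨hpc, hb⟩
    obtain ⟨q, hq1, hq2⟩ := h2
    exact hq2 (Or.inr hq1)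
  · refine hp.2 (h1 ?_)
    rintro (h | h)
    · exact hpc h
    · exact hb h.2

end RSys

end Pool.Agent.Helper67.PY
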