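import Pool.Agent.Helper67.PY.RSys

/-!
# Parity for rectilinear curve systems
-/

namespace Pool.Agent.Helper67.PY

open Set

namespace RSys

variable {H W : Type} (Q : RSys H W)

theorem lw_ne_rw (i : H) : Q.lw i ≠ Q.rw i := fun h => by
  have := Q.x_lt i
  rw [h] at this
  exact lt_irrefl _ this

theorem be_ne_te (j : W) : Q.be j ≠ Q.te j := fun h => by
  have := Q.y_lt j
  rw [h] at this
  exact lt_irrefl _ this

/-- Exchange of the coordinates. -/
def swap : RSys W H where
  y := Q.x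
  x := Q.y
  lw := Q.be
  rw := Q.te
  be := Q.lw
  te := Q.rw
  x_lt := Q.y_lt
  y_lt := Q.x_lt
  inc := fun i j => (Q.inc j i).symm
  cross := fun i j h1 h2 h3 h4 => (Q.inc j i).1 (Q.cross j i h3 h4 h1 h2)
  hh := Q.vv
  vv := Q.hh

theorem swap_curve (p : ℝ × ℝ) : p ∈ Q.swap.curve ↔ p.swap ∈ Q.curve := by
  unfold curve
  constructor
  · rintro (h | h)
    · obtain ⟨i, hi⟩ := mem_iUnion.1 h
      right
      exact mem_iUnion.2 ⟨i, hi.2.2, hi.1, hi.2.1⟩
    · obtain ⟨i, hi⟩ := mem_iUnion.1 h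
      left
      exact mem_iUnion.2 ⟨i, hi.2.1, hi.2.2, hi.1⟩
  · rintro (h | h)
    · obtain ⟨i, hi⟩ := mem_iUnion.1 h
      right
      exact mem_iUnion.2 ⟨i, hi.2.2, hi.1, hi.2.1⟩
    · obtain ⟨i, hi⟩ := mem_iUnion.1 h
      left
      exact mem_iUnion.2 ⟨i, hi.2.1, hi.2.2, hi.1⟩

variable [Fintype H] [Fintype W]

theorem double_count (F : H → W → ZMod 2) :
    ∑ i, (F i (Q.lw i) + F i (Q.rw i)) = ∑ j, (F (Q.be j) j + F (Q.te j) j) := by
  classical
  have h1 : ∀ i, F i (Q.lw i) + F i (Q.rw i) =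
      ∑ j, (if Q.lw i = j ∨ Q.rw i = j then F i j else 0) := by
    intro i
    have hs : ∀ j, (if Q.lw i = j ∨ Q.rw i = j then F i j else 0) =
        (if Q.lw i = j then F i j else 0) + (if Q.rw i = j then F i j else 0) := by
      intro j
      by_cases h1 : Q.lw i = j <;> by_cases h2 : Q.rw i = j
      · exact absurd (h1.trans h2.symm) (Q.lw_ne_rw i)
      all_goals simp [h1, h2]
    simp_rw [hs, Finset.sum_add_distrib]
    simp
  have h2 : ∀ j, F (Q.be j) j + F (Q.te j) j =
      ∑ i, (if Q.be j = i ∨ Q.te j = i then F i j else 0) := by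
    intro j
    have hs : ∀ i, (if Q.be j = i ∨ Q.te j = i then F i j else 0) =
        (if Q.be j = i then F i j else 0) + (if Q.te j = i then F i j else 0) := by
      intro i
      by_cases h1 : Q.be j = i <;> by_cases h2 : Q.te j = i
      · exact absurd (h1.trans h2.symm) (Q.be_ne_te j)
      all_goals simp [h1, h2]
    simp_rw [hs, Finset.sum_add_distrib]
    simp
  simp_rw [h1, h2]
  rw [Finset.sum_comm]
  refine Finset.sum_congr rfl (fun j _ => Finset.sum_congr rfl (fun i _ => ?_))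
  simp only [Q.inc i j]

open Classical in
/-- Parity of the number of horizontal edges above a point. -/
noncomputable def par (p : ℝ × ℝ) : ZMod 2 :=
  ∑ i, ((if p.2 < Q.y i then 1 else 0) * (if Q.x (Q.lw i) ≤ p.1 then (1 : ZMod 2) else 0) +
    (if p.2 < Q.y i then 1 else 0) * (if Q.x (Q.rw i) ≤ p.1 then (1 : ZMod 2) else 0))

open Classical in
theorem par_eq_walls (p : ℝ × ℝ) : Q.par p =
    ∑ j, ((if p.2 < Q.y (Q.be j) then 1 else 0) * (if Q.x j ≤ p.1 then (1 : ZMod 2) else 0) +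
    (if p.2 < Q.y (Q.te j) then 1 else 0) * (if Q.x j ≤ p.1 then (1 : ZMod 2) else 0)) :=
  Q.double_count (fun i j => (if p.2 < Q.y i then 1 else 0) *
    (if Q.x j ≤ p.1 then (1 : ZMod 2) else 0))

theorem swap_par (p : ℝ × ℝ) : Q.swap.par p = Q.par p.swap := by
  classical
  have e2 : (1 : ZMod 2) + 1 = 0 := by decide
  have h0 := Q.double_count (fun _ j => (if Q.x j ≤ p.2 then (1 : ZMod 2) else 0))
  have h0' : ∑ j : W, ((if Q.x j ≤ p.2 then (1 : ZMod 2) else 0) +
      (if Q.x j ≤ p.2 then (1 : ZMod 2) else 0)) = 0 := by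
    refine Finset.sum_eq_zero (fun j _ => ?_)
    split_ifs <;> simp [e2]
  rw [h0'] at h0
  have hsum : Q.swap.par p + Q.par p.swap = 0 := by
    rw [par_eq_walls, par, ← Finset.sum_add_distrib]
    refine Eq.trans (Finset.sum_congr rfl (fun i _ => ?_)) h0
    have hx := Q.x_lt i
    simp only [swap, Prod.fst_swap, Prod.snd_swap]
    by_cases a1 : Q.y i ≤ p.1
    · have a2 : ¬ (p.1 < Q.y i) := not_lt.2 a1
      by_cases b1 : Q.x (Q.lw i) ≤ p.2 <;> by_cases b2 : Q.x (Q.rw i) ≤ p.2
      · simp [a1, a2, b1, b2, not_lt.2 b1, not_lt.2 b2, e2]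
      · simp [a1, a2, b1, b2, not_lt.2 b1, not_le.1 b2]
      · exfalso; linarith
      · simp [a1, a2, b1, b2, not_le.1 b1, not_le.1 b2, e2]
    · have a2 : p.1 < Q.y i := not_le.1 a1
      by_cases b1 : Q.x (Q.lw i) ≤ p.2 <;> by_cases b2 : Q.x (Q.rw i) ≤ p.2 <;>
        simp [a1, a2, b1, b2]
  have h2 : ∀ a b : ZMod 2, a + b = 0 → a = b := by decide
  exact h2 _ _ hsum

omit [Fintype W] in
/-- The parity is constant along vertical segments disjoint from the curve. -/
theorem par_vert {a b b' : ℝ} (hb : b ≤ b') (h : ∀ t, b ≤ t → t ≤ b' → (a, t) ∉ Q.curve) :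
    Q.par (a, b) = Q.par (a, b') := by
  classical
  unfold par
  refine Finset.sum_congr rfl (fun i _ => ?_)
  dsimp only
  have e2 : (1 : ZMod 2) + 1 = 0 := by decide
  by_cases h1 : b < Q.y i
  · by_cases h2 : b' < Q.y i
    · simp [h1, h2]
    · have hi : ¬ (Q.x (Q.lw i) ≤ a ∧ a ≤ Q.x (Q.rw i)) := by
        rintro ⟨h3, h4⟩
        exact h (Q.y i) h1.le (not_lt.1 h2) (Or.inl (mem_iUnion.2 ⟨i, h3, h4, rfl⟩))
      have hx := Q.x_lt i
      by_cases h3 : Q.x (Q.lw i) ≤ a
      · have h4 : Q.x (Q.rw i) < a := not_le.1 (fun h4 => hi ⟨h3, h4⟩)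
        simp [h1, h2, h3, h4.le, e2]
      · have h4 : ¬ Q.x (Q.rw i) ≤ a := fun h4 => h3 (hx.le.trans h4)
        simp [h3, h4]
  · have h2 : ¬ b' < Q.y i := fun h2 => h1 (lt_of_le_of_lt hb h2)
    simp [h1, h2]

theorem par_horiz {a a' b : ℝ} (hb : a ≤ a') (h : ∀ t, a ≤ t → t ≤ a' → (t, b) ∉ Q.curve) :
    Q.par (a, b) = Q.par (a', b) := by
  have h1 := Q.swap.par_vert (a := b) (b := a) (b' := a') hb (fun t ht ht' hc => by
    rw [Q.swap_curve] at hc
    exact h t ht ht' hc)
  rw [Q.swap_par, Q.swap_par] at h1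
  exact h1

/-- The parity is locally constant off the curve. -/
theorem par_locally {p : ℝ × ℝ} (hp : p ∉ Q.curve) :
    ∀ᶠ q in nhds p, Q.par q = Q.par p := by
  have hopen : Q.curveᶜ ∈ nhds p := Q.isClosed_curve.isOpen_compl.mem_nhds hp
  obtain ⟨ε, hε, hball⟩ := Metric.mem_nhds_iff.1 hopen
  filter_upwards [Metric.ball_mem_nhds p hε] with q hq
  have hq1 : |q.1 - p.1| < ε := by
    have := lt_of_le_of_lt (le_max_left (dist q.1 p.1) (dist q.2 p.2)) hq
    rwa [Real.dist_eq] at this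
  have hq2 : |q.2 - p.2| < ε := by
    have := lt_of_le_of_lt (le_max_right (dist q.1 p.1) (dist q.2 p.2)) hq
    rwa [Real.dist_eq] at this
  have hin : ∀ s t : ℝ, |s - p.1| < ε → |t - p.2| < ε → (s, t) ∉ Q.curve := by
    intro s t hs ht
    have : (s, t) ∈ Metric.ball p ε := by
      rw [Metric.mem_ball, Prod.dist_eq]
      exact max_lt (by rwa [Real.dist_eq]) (by rwa [Real.dist_eq])
    exact hball this
  have hv : Q.par (p.1, p.2) = Q.par (p.1, q.2) := by
    rcases le_total p.2 q.2 with h | h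
    · refine Q.par_vert h (fun t h1 h2 => hin _ _ (by simpa using hε) ?_)
      rw [abs_lt] at hq2 ⊢
      constructor <;> linarith [hq2.1, hq2.2]
    · refine (Q.par_vert h (fun t h1 h2 => hin _ _ (by simpa using hε) ?_)).symm
      rw [abs_lt] at hq2 ⊢
      constructor <;> linarith [hq2.1, hq2.2]
  have hh : Q.par (p.1, q.2) = Q.par (q.1, q.2) := by
    rcases le_total p.1 q.1 with h | h
    · refine Q.par_horiz h (fun t h1 h2 => hin _ _ ?_ hq2)
      rw [abs_lt] at hq1 ⊢
      constructor <;> linarith [hq1.1, hq1.2]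
    · refine (Q.par_horiz h (fun t h1 h2 => hin _ _ ?_ hq2)).symm
      rw [abs_lt] at hq1 ⊢
      constructor <;> linarith [hq1.1, hq1.2]
  exact (hv.trans hh).symm

/-- The parity is constant on preconnected sets disjoint from the curve. -/
theorem par_const {S : Set (ℝ × ℝ)} (hS : IsPreconnected S) (hd : ∀ p ∈ S, p ∉ Q.curve)
    {p q : ℝ × ℝ} (hp : p ∈ S) (hq : q ∈ S) : Q.par p = Q.par q := by
  classical
  have hc : ContinuousOn (fun z => decide (Q.par z = Q.par p)) S := by
    intro z hz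
    refine ContinuousAt.continuousWithinAt ?_
    have : (fun z => decide (Q.par z = Q.par p)) =ᶠ[nhds z] fun _ => decide (Q.par z = Q.par p) := by
      filter_upwards [Q.par_locally (hd z hz)] with w hw
      rw [hw]
    exact continuousAt_const.congr this.symm
  have := hS.constant hc hp hq
  simp only [decide_true] at this
  have h2 : Q.par q = Q.par p := by
    by_contra hne
    rw [decide_eq_false hne] at this
    exact absurd this (by decide)
  exact h2.symm

end RSys

end Pool.Agent.Helper67.PY
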