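import Pool.Agent.Helper67.PY.Rank

/-!
# Orthogonal polygons
-/

namespace Pool.Agent.Helper67.PY

open Set

/-- An orthogonal polygon with `n` vertices `pt 0, …, pt (n-1)` (indices mod `n`): all edges
`[pt i, pt (i+1)]` are nondegenerate and parallel to the axes, every vertex is a real corner, and two
edges that are not consecutive are disjoint (so the closed polygonal curve is simple). -/
structure OrthPolygon (n : ℕ) where
  /-- the vertices, in cyclic order -/
  pt : ZMod n → ℝ × ℝ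
  pos : 0 < n
  ne : ∀ i, pt i ≠ pt (i + 1)
  axis : ∀ i, (pt i).1 = (pt (i + 1)).1 ∨ (pt i).2 = (pt (i + 1)).2
  corner : ∀ i, ¬ Collinear ℝ {pt i, pt (i + 1), pt (i + 2)}
  simple : ∀ i j, i ≠ j → i ≠ j + 1 → j ≠ i + 1 →
    Disjoint (segment ℝ (pt i) (pt (i + 1))) (segment ℝ (pt j) (pt (j + 1)))

namespace OrthPolygon

variable {n : ℕ} (P : OrthPolygon n)

/-- The boundary curve: the union of the closed edges. -/
def boundary : Set (ℝ × ℝ) := ⋃ i, segment ℝ (P.pt i) (P.pt (i + 1))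

/-- The polygon as a closed region: the boundary curve together with the bounded components of its
complement. -/
def region : Set (ℝ × ℝ) :=
  P.boundary ∪ {p | p ∉ P.boundary ∧ Bornology.IsBounded (connectedComponentIn P.boundaryᶜ p)}

/-- The closure of the complement of the polygon. -/
def exterior : Set (ℝ × ℝ) := closure P.regionᶜ

/-- the edge `i` is horizontal -/
def Hor (i : ZMod n) : Prop := (P.pt i).2 = (P.pt (i + 1)).2

theorem hor_ne {i : ZMod n} (h : P.Hor i) : (P.pt i).1 ≠ (P.pt (i + 1)).1 := fun h' =>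
  P.ne i (Prod.ext h' h)

theorem vert_eq {i : ZMod n} (h : ¬ P.Hor i) : (P.pt i).1 = (P.pt (i + 1)).1 := by
  rcases P.axis i with h' | h'
  · exact h'
  · exact absurd h' h

theorem collinear_of_snd {a b c : ℝ × ℝ} (h1 : a.2 = b.2) (h2 : b.2 = c.2) :
    Collinear ℝ {a, b, c} := by
  rw [collinear_iff_exists_forall_eq_smul_vadd]
  refine ⟨(0, b.2), (1, 0), ?_⟩
  intro p hp
  refine ⟨p.1, ?_⟩
  have hp2 : p.2 = b.2 := by
    rcases hp with rfl | hp
    · exact h1
    · rcases hp with rfl | rfl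
      · rfl
      · exact h2.symm
  ext
  · simp
  · simp [hp2]

theorem collinear_of_fst {a b c : ℝ × ℝ} (h1 : a.1 = b.1) (h2 : b.1 = c.1) :
    Collinear ℝ {a, b, c} := by
  rw [collinear_iff_exists_forall_eq_smul_vadd]
  refine ⟨(b.1, 0), (0, 1), ?_⟩
  intro p hp
  refine ⟨p.2, ?_⟩
  have hp2 : p.1 = b.1 := by
    rcases hp with rfl | hp
    · exact h1
    · rcases hp with rfl | rfl
      · rfl
      · exact h2.symm
  ext
  · simp [hp2]
  · simp

theorem hor_succ (i : ZMod n) : P.Hor (i + 1) ↔ ¬ P.Hor i := by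
  have e : i + 1 + 1 = i + 2 := by ring
  constructor
  · intro h1 h2
    unfold Hor at h1 h2
    rw [e] at h1
    exact P.corner i (collinear_of_snd h2 h1)
  · intro h1
    by_contra h2
    have h3 := P.vert_eq h1
    have h4 := P.vert_eq h2
    rw [e] at h4
    exact P.corner i (collinear_of_fst h3 h4)

theorem hor_pred (i : ZMod n) : P.Hor (i - 1) ↔ ¬ P.Hor i := by
  have h := P.hor_succ (i - 1)
  rw [sub_add_cancel] at h
  rw [h, not_not]

theorem segment_hor {i : ZMod n} (h : P.Hor i) (p : ℝ × ℝ) :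
    p ∈ segment ℝ (P.pt i) (P.pt (i + 1)) ↔
      p.1 ∈ uIcc (P.pt i).1 (P.pt (i + 1)).1 ∧ p.2 = (P.pt i).2 := by
  have e1 : P.pt i = ((P.pt i).1, (P.pt i).2) := rfl
  have e2 : P.pt (i + 1) = ((P.pt (i + 1)).1, (P.pt i).2) := Prod.ext rfl h.symm
  have e3 : segment ℝ (P.pt i) (P.pt (i + 1)) =
      (fun x => (x, (P.pt i).2)) '' segment ℝ (P.pt i).1 (P.pt (i + 1)).1 := by
    rw [Prod.image_mk_segment_left]
    conv_lhs => rw [e1, e2]
  rw [e3, segment_eq_uIcc]
  constructor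
  · rintro ⟨a, ha, rfl⟩
    exact ⟨ha, rfl⟩
  · rintro ⟨h1, h2⟩
    exact ⟨p.1, h1, Prod.ext rfl h2.symm⟩

theorem segment_vert {i : ZMod n} (h : ¬ P.Hor i) (p : ℝ × ℝ) :
    p ∈ segment ℝ (P.pt i) (P.pt (i + 1)) ↔
      p.1 = (P.pt i).1 ∧ p.2 ∈ uIcc (P.pt i).2 (P.pt (i + 1)).2 := by
  have e1 : P.pt i = ((P.pt i).1, (P.pt i).2) := rfl
  have e2 : P.pt (i + 1) = ((P.pt i).1, (P.pt (i + 1)).2) := Prod.ext (P.vert_eq h).symm rfl
  have e3 : segment ℝ (P.pt i) (P.pt (i + 1)) =
      (fun x => ((P.pt i).1, x)) '' segment ℝ (P.pt i).2 (P.pt (i + 1)).2 := by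
    rw [Prod.image_mk_segment_right]
    conv_lhs => rw [e1, e2]
  rw [e3, segment_eq_uIcc]
  constructor
  · rintro ⟨a, ha, rfl⟩
    exact ⟨rfl, ha⟩
  · rintro ⟨h1, h2⟩
    exact ⟨p.2, h2, Prod.ext h1.symm rfl⟩

/-- horizontal edges -/
abbrev HE : Type := {i : ZMod n // P.Hor i}

/-- walls -/
abbrev WE : Type := {i : ZMod n // ¬ P.Hor i}

def predW (i : P.HE) : P.WE := ⟨i.1 - 1, fun h => (P.hor_pred i.1).1 h i.2⟩
def succW (i : P.HE) : P.WE := ⟨i.1 + 1, fun h => (P.hor_succ i.1).1 h i.2⟩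
def predH (j : P.WE) : P.HE := ⟨j.1 - 1, (P.hor_pred j.1).2 j.2⟩
def succH (j : P.WE) : P.HE := ⟨j.1 + 1, (P.hor_succ j.1).2 j.2⟩

theorem x_predW (i : P.HE) : (P.pt (P.predW i).1).1 = (P.pt i.1).1 := by
  have h := P.vert_eq (P.predW i).2
  have e : (P.predW i).1 + 1 = i.1 := by simp [predW]
  rw [e] at h
  exact h

theorem x_succW (i : P.HE) : (P.pt (P.succW i).1).1 = (P.pt (i.1 + 1)).1 := rfl

theorem y_predH (j : P.WE) : (P.pt (P.predH j).1).2 = (P.pt j.1).2 := by
  have h := (P.predH j).2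
  unfold Hor at h
  have e : (P.predH j).1 + 1 = j.1 := by simp [predH]
  rw [e] at h
  exact h

theorem y_succH (j : P.WE) : (P.pt (P.succH j).1).2 = (P.pt (j.1 + 1)).2 := rfl

theorem inc_iff (i : P.HE) (j : P.WE) :
    (P.predW i = j ∨ P.succW i = j) ↔ (P.predH j = i ∨ P.succH j = i) := by
  simp only [Subtype.ext_iff, predW, succW, predH, succH]
  constructor
  · rintro (h | h)
    · right; rw [← h]; ring
    · left; rw [← h]; ring
  · rintro (h | h)
    · right; rw [← h]; ring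
    · left; rw [← h]; ring

theorem not_adj_hh {i i' : P.HE} : i.1 ≠ i'.1 + 1 := by
  intro h
  have h1 := i.2
  rw [h, P.hor_succ] at h1
  exact h1 i'.2

theorem not_adj_ww {i i' : P.WE} : i.1 ≠ i'.1 + 1 := by
  intro h
  have h1 := i.2
  rw [h, P.hor_succ] at h1
  exact h1 i'.2

open Classical in
/-- The curve system of an orthogonal polygon. -/
noncomputable def sys : RSys P.HE P.WE where
  y := fun i => (P.pt i.1).2
  x := fun j => (P.pt j.1).1
  lw := fun i => if (P.pt i.1).1 < (P.pt (i.1 + 1)).1 then P.predW i else P.succW i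
  rw := fun i => if (P.pt i.1).1 < (P.pt (i.1 + 1)).1 then P.succW i else P.predW i
  be := fun j => if (P.pt j.1).2 < (P.pt (j.1 + 1)).2 then P.predH j else P.succH j
  te := fun j => if (P.pt j.1).2 < (P.pt (j.1 + 1)).2 then P.succH j else P.predH j
  x_lt := by
    intro i
    by_cases h : (P.pt i.1).1 < (P.pt (i.1 + 1)).1
    · simp only [h, if_true]
      rw [P.x_predW, P.x_succW]
      exact h
    · simp only [h, if_false]
      rw [P.x_predW, P.x_succW]
      exact lt_of_le_of_ne (not_lt.1 h) (Ne.symm (P.hor_ne i.2))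
  y_lt := by
    intro j
    by_cases h : (P.pt j.1).2 < (P.pt (j.1 + 1)).2
    · simp only [h, if_true]
      rw [P.y_predH, P.y_succH]
      exact h
    · simp only [h, if_false]
      rw [P.y_predH, P.y_succH]
      exact lt_of_le_of_ne (not_lt.1 h) (fun h' => j.2 h'.symm)
  inc := by
    intro i j
    have h0 := P.inc_iff i j
    by_cases h1 : (P.pt i.1).1 < (P.pt (i.1 + 1)).1 <;>
      by_cases h2 : (P.pt j.1).2 < (P.pt (j.1 + 1)).2
    · simp only [h1, h2, if_true]; exact h0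
    · simp only [h1, h2, if_true, if_false]; rw [h0, or_comm]
    · simp only [h1, h2, if_true, if_false]; rw [or_comm, h0]
    · simp only [h1, h2, if_false]; rw [or_comm, h0, or_comm]
  cross := by
    intro i j h1 h2 h3 h4
    have hx : (P.pt j.1).1 ∈ uIcc (P.pt i.1).1 (P.pt (i.1 + 1)).1 := by
      rw [mem_uIcc]
      by_cases h : (P.pt i.1).1 < (P.pt (i.1 + 1)).1
      · simp only [h, if_true] at h1 h2
        rw [P.x_predW] at h1
        rw [P.x_succW] at h2
        exact Or.inl ⟨h1, h2⟩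
      · simp only [h, if_false] at h1 h2
        rw [P.x_succW] at h1
        rw [P.x_predW] at h2
        exact Or.inr ⟨h1, h2⟩
    have hy : (P.pt i.1).2 ∈ uIcc (P.pt j.1).2 (P.pt (j.1 + 1)).2 := by
      rw [mem_uIcc]
      by_cases h : (P.pt j.1).2 < (P.pt (j.1 + 1)).2
      · simp only [h, if_true] at h3 h4
        rw [P.y_predH] at h3
        rw [P.y_succH] at h4
        exact Or.inl ⟨h3, h4⟩
      · simp only [h, if_false] at h3 h4
        rw [P.y_succH] at h3
        rw [P.y_predH] at h4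
        exact Or.inr ⟨h3, h4⟩
    have hm1 : ((P.pt j.1).1, (P.pt i.1).2) ∈ segment ℝ (P.pt i.1) (P.pt (i.1 + 1)) :=
      (P.segment_hor i.2 _).2 ⟨hx, rfl⟩
    have hm2 : ((P.pt j.1).1, (P.pt i.1).2) ∈ segment ℝ (P.pt j.1) (P.pt (j.1 + 1)) :=
      (P.segment_vert j.2 _).2 ⟨rfl, hy⟩
    have hadj : j.1 = i.1 - 1 ∨ j.1 = i.1 + 1 := by
      by_contra hcon
      push Not at hcon
      have hne : i.1 ≠ j.1 := fun h => j.2 (h ▸ i.2)
      have := P.simple i.1 j.1 hne (fun h => hcon.1 (by rw [h]; ring)) hcon.2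
      exact Set.disjoint_left.1 this hm1 hm2
    by_cases h : (P.pt i.1).1 < (P.pt (i.1 + 1)).1
    · simp only [h, if_true, Subtype.ext_iff, predW, succW]
      rcases hadj with h' | h'
      · left; exact h'.symm
      · right; exact h'.symm
    · simp only [h, if_false, Subtype.ext_iff, predW, succW]
      rcases hadj with h' | h'
      · right; exact h'.symm
      · left; exact h'.symm
  hh := by
    intro i i' hne hy
    have hdis := P.simple i.1 i'.1 (fun h => hne (Subtype.ext h)) P.not_adj_hh P.not_adj_hh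
    have key : ∀ k : P.HE,
        (fun i : P.HE => (P.pt (if (P.pt i.1).1 < (P.pt (i.1 + 1)).1 then P.predW i else P.succW i).1).1) k
          = min (P.pt k.1).1 (P.pt (k.1 + 1)).1 ∧
        (fun i : P.HE => (P.pt (if (P.pt i.1).1 < (P.pt (i.1 + 1)).1 then P.succW i else P.predW i).1).1) k
          = max (P.pt k.1).1 (P.pt (k.1 + 1)).1 := by
      intro k
      by_cases h : (P.pt k.1).1 < (P.pt (k.1 + 1)).1
      · simp only [h, if_true, min_eq_left h.le, max_eq_right h.le]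
        exact ⟨P.x_predW k, P.x_succW k⟩
      · simp only [h, if_false, min_eq_right (not_lt.1 h), max_eq_left (not_lt.1 h)]
        exact ⟨P.x_succW k, P.x_predW k⟩
    have k1 := key i
    have k2 := key i'
    dsimp only at k1 k2 ⊢
    rw [k1.1, k1.2, k2.1, k2.2]
    by_contra hcon
    push Not at hcon
    obtain ⟨c1, c2⟩ := hcon
    -- the common point
    let t := max (min (P.pt i.1).1 (P.pt (i.1 + 1)).1) (min (P.pt i'.1).1 (P.pt (i'.1 + 1)).1)
    have m1 : min (P.pt i.1).1 (P.pt (i.1 + 1)).1 ≤ max (P.pt i.1).1 (P.pt (i.1 + 1)).1 := min_le_max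
    have m2 : min (P.pt i'.1).1 (P.pt (i'.1 + 1)).1 ≤ max (P.pt i'.1).1 (P.pt (i'.1 + 1)).1 := min_le_max
    have t1 : (t, (P.pt i.1).2) ∈ segment ℝ (P.pt i.1) (P.pt (i.1 + 1)) :=
      (P.segment_hor i.2 _).2 ⟨⟨le_max_left _ _, max_le m1 c1⟩, rfl⟩
    have t2 : (t, (P.pt i.1).2) ∈ segment ℝ (P.pt i'.1) (P.pt (i'.1 + 1)) :=
      (P.segment_hor i'.2 _).2 ⟨⟨le_max_right _ _, max_le c2 m2⟩, hy⟩
    exact Set.disjoint_left.1 hdis t1 t2
  vv := by
    intro i i' hne hy
    have hdis := P.simple i.1 i'.1 (fun h => hne (Subtype.ext h)) P.not_adj_ww P.not_adj_ww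
    have key : ∀ k : P.WE,
        (fun j : P.WE => (P.pt (if (P.pt j.1).2 < (P.pt (j.1 + 1)).2 then P.predH j else P.succH j).1).2) k
          = min (P.pt k.1).2 (P.pt (k.1 + 1)).2 ∧
        (fun j : P.WE => (P.pt (if (P.pt j.1).2 < (P.pt (j.1 + 1)).2 then P.succH j else P.predH j).1).2) k
          = max (P.pt k.1).2 (P.pt (k.1 + 1)).2 := by
      intro k
      by_cases h : (P.pt k.1).2 < (P.pt (k.1 + 1)).2
      · simp only [h, if_true, min_eq_left h.le, max_eq_right h.le]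
        exact ⟨P.y_predH k, P.y_succH k⟩
      · simp only [h, if_false, min_eq_right (not_lt.1 h), max_eq_left (not_lt.1 h)]
        exact ⟨P.y_succH k, P.y_predH k⟩
    have k1 := key i
    have k2 := key i'
    dsimp only at k1 k2 ⊢
    rw [k1.1, k1.2, k2.1, k2.2]
    by_contra hcon
    push Not at hcon
    obtain ⟨c1, c2⟩ := hcon
    let t := max (min (P.pt i.1).2 (P.pt (i.1 + 1)).2) (min (P.pt i'.1).2 (P.pt (i'.1 + 1)).2)
    have m1 : min (P.pt i.1).2 (P.pt (i.1 + 1)).2 ≤ max (P.pt i.1).2 (P.pt (i.1 + 1)).2 := min_le_max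
    have m2 : min (P.pt i'.1).2 (P.pt (i'.1 + 1)).2 ≤ max (P.pt i'.1).2 (P.pt (i'.1 + 1)).2 := min_le_max
    have t1 : ((P.pt i.1).1, t) ∈ segment ℝ (P.pt i.1) (P.pt (i.1 + 1)) :=
      (P.segment_vert i.2 _).2 ⟨rfl, ⟨le_max_left _ _, max_le m1 c1⟩⟩
    have t2 : ((P.pt i.1).1, t) ∈ segment ℝ (P.pt i'.1) (P.pt (i'.1 + 1)) :=
      (P.segment_vert i'.2 _).2 ⟨hy, ⟨le_max_right _ _, max_le c2 m2⟩⟩
    exact Set.disjoint_left.1 hdis t1 t2

end OrthPolygon

end Pool.Agent.Helper67.PY
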