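import Mathlib

/-!
# Rectilinear curve systems in the plane: cells, boxes, visibility

`RSys H W`: finite types of horizontal edges `H` and walls (vertical edges) `W` with real
coordinates; ties are allowed.  `curve` is the union of all closed edges.
-/

namespace Pool.Agent.Helper67.PY

open Set

/-- A finite rectilinear curve system (finitely many disjoint simple closed rectilinear curves). -/
structure RSys (H W : Type) where
  /-- height of a horizontal edge -/
  y : H → ℝ
  /-- position of a wall -/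
  x : W → ℝ
  /-- wall at the left end of an edge -/
  lw : H → W
  /-- wall at the right end of an edge -/
  rw : H → W
  /-- edge at the bottom end of a wall -/
  be : W → H
  /-- edge at the top end of a wall -/
  te : W → H
  x_lt : ∀ i, x (lw i) < x (rw i)
  y_lt : ∀ j, y (be j) < y (te j)
  inc : ∀ i j, (lw i = j ∨ rw i = j) ↔ (be j = i ∨ te j = i)
  cross : ∀ i j, x (lw i) ≤ x j → x j ≤ x (rw i) → y (be j) ≤ y i → y i ≤ y (te j) →
    (lw i = j ∨ rw i = j)
  hh : ∀ i i', i ≠ i' → y i = y i' → x (rw i) < x (lw i') ∨ x (rw i') < x (lw i)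
  vv : ∀ j j', j ≠ j' → x j = x j' → y (te j) < y (be j') ∨ y (te j') < y (be j)

namespace RSys

variable {H W : Type} (Q : RSys H W)

/-- the closed horizontal edge `i` -/
def hedge (i : H) : Set (ℝ × ℝ) :=
  {p | Q.x (Q.lw i) ≤ p.1 ∧ p.1 ≤ Q.x (Q.rw i) ∧ p.2 = Q.y i}

/-- the closed wall `j` -/
def wall (j : W) : Set (ℝ × ℝ) :=
  {p | p.1 = Q.x j ∧ Q.y (Q.be j) ≤ p.2 ∧ p.2 ≤ Q.y (Q.te j)}

/-- the union of all closed edges -/
def curve : Set (ℝ × ℝ) := (⋃ i, Q.hedge i) ∪ ⋃ j, Q.wall j

theorem isClosed_hedge (i : H) : IsClosed (Q.hedge i) := by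
  unfold hedge
  refine IsClosed.inter (isClosed_le continuous_const continuous_fst) ?_
  exact IsClosed.inter (isClosed_le continuous_fst continuous_const)
    (isClosed_eq continuous_snd continuous_const)

theorem isClosed_wall (j : W) : IsClosed (Q.wall j) := by
  unfold wall
  refine IsClosed.inter (isClosed_eq continuous_fst continuous_const) ?_
  exact IsClosed.inter (isClosed_le continuous_const continuous_snd)
    (isClosed_le continuous_snd continuous_const)

theorem isClosed_curve [Finite H] [Finite W] : IsClosed Q.curve :=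
  (isClosed_iUnion_of_finite Q.isClosed_hedge).union (isClosed_iUnion_of_finite Q.isClosed_wall)

end RSys

/-- The interval between the grid lines of ranks `l` and `r`: the ranks `0` and `> m` are
infinite. -/
def OI (m : ℕ) (X : ℕ → ℝ) (l r : ℕ) : Set ℝ :=
  {t | (1 ≤ l → X l < t) ∧ (r ≤ m → t < X r)}

/-- The same, closed. -/
def CI (m : ℕ) (X : ℕ → ℝ) (l r : ℕ) : Set ℝ :=
  {t | (1 ≤ l → X l ≤ t) ∧ (r ≤ m → t ≤ X r)}

theorem OI_convex (m : ℕ) (X : ℕ → ℝ) (l r : ℕ) : Convex ℝ (OI m X l r) := by
  have h : OI m X l r = (if 1 ≤ l then Ioi (X l) else univ) ∩ (if r ≤ m then Iio (X r) else univ) := by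
    ext t
    by_cases h1 : 1 ≤ l <;> by_cases h2 : r ≤ m <;> simp [OI, h1, h2]
  rw [h]
  refine Convex.inter ?_ ?_
  · split_ifs
    · exact convex_Ioi _
    · exact convex_univ
  · split_ifs
    · exact convex_Iio _
    · exact convex_univ

theorem OI_open (m : ℕ) (X : ℕ → ℝ) (l r : ℕ) : IsOpen (OI m X l r) := by
  have h : OI m X l r = (if 1 ≤ l then Ioi (X l) else univ) ∩ (if r ≤ m then Iio (X r) else univ) := by
    ext t
    by_cases h1 : 1 ≤ l <;> by_cases h2 : r ≤ m <;> simp [OI, h1, h2]
  rw [h]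
  refine IsOpen.inter ?_ ?_
  · split_ifs
    · exact isOpen_Ioi
    · exact isOpen_univ
  · split_ifs
    · exact isOpen_Iio
    · exact isOpen_univ

/-- A point of the closed interval is a limit of points of the (nonempty) open one. -/
theorem CI_subset_closure {m : ℕ} {X : ℕ → ℝ} {l r : ℕ} (hne : (OI m X l r).Nonempty) :
    CI m X l r ⊆ closure (OI m X l r) := by
  obtain ⟨u, hu⟩ := hne
  intro t ht
  have hseg : ∀ s ∈ Ioc (0 : ℝ) 1, (1 - s) * t + s * u ∈ OI m X l r := by
    intro s hs
    refine ⟨fun h1 => ?_, fun h2 => ?_⟩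
    · have a1 := ht.1 h1
      have a2 := hu.1 h1
      nlinarith [hs.1, hs.2]
    · have a1 := ht.2 h2
      have a2 := hu.2 h2
      nlinarith [hs.1, hs.2]
  have hlim : Filter.Tendsto (fun s : ℝ => (1 - s) * t + s * u) (nhdsWithin 0 (Ioc 0 1)) (nhds t) := by
    have hc : Continuous (fun s : ℝ => (1 - s) * t + s * u) := by fun_prop
    have := hc.tendsto 0
    simp only [sub_zero, one_mul, zero_mul, add_zero] at this
    exact this.mono_left nhdsWithin_le_nhds
  have : (nhdsWithin (0 : ℝ) (Ioc 0 1)).NeBot := by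
    rw [← mem_closure_iff_nhdsWithin_neBot, closure_Ioc (by norm_num)]
    exact ⟨le_refl _, by norm_num⟩
  exact mem_closure_of_tendsto hlim (eventually_mem_nhdsWithin.mono hseg)

theorem closure_OI_subset (m : ℕ) (X : ℕ → ℝ) (l r : ℕ) : closure (OI m X l r) ⊆ CI m X l r := by
  have hcl : IsClosed (CI m X l r) := by
    have h : CI m X l r = (if 1 ≤ l then Ici (X l) else univ) ∩ (if r ≤ m then Iic (X r) else univ) := by
      ext t
      by_cases h1 : 1 ≤ l <;> by_cases h2 : r ≤ m <;> simp [CI, h1, h2]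
    rw [h]
    refine IsClosed.inter ?_ ?_
    · split_ifs
      · exact isClosed_Ici
      · exact isClosed_univ
    · split_ifs
      · exact isClosed_Iic
      · exact isClosed_univ
  refine closure_minimal ?_ hcl
  intro t ht
  exact ⟨fun h => (ht.1 h).le, fun h => (ht.2 h).le⟩

/-- Every real number not on a grid line lies in a unit interval. -/
theorem exists_unit (m : ℕ) (X : ℕ → ℝ) (t : ℝ)
    (ht : ∀ k, 1 ≤ k → k ≤ m → t ≠ X k) : ∃ j, j ≤ m ∧ t ∈ OI m X j (j + 1) := by
  classical
  by_cases h : ∃ k, 1 ≤ k ∧ k ≤ m ∧ t < X k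
  · let k := Nat.find h
    have hk : 1 ≤ k ∧ k ≤ m ∧ t < X k := Nat.find_spec h
    refine ⟨k - 1, by omega, ?_, ?_⟩
    · intro h1
      have hmin := Nat.find_min h (m := k - 1) (by omega)
      have h2 : ¬ t < X (k - 1) := fun hlt => hmin ⟨h1, by omega, hlt⟩
      rcases lt_trichotomy t (X (k - 1)) with h3 | h3 | h3
      · exact absurd h3 h2
      · exact absurd h3 (ht _ h1 (by omega))
      · exact h3
    · intro _
      have : k - 1 + 1 = k := by omega
      rw [this]
      exact hk.2.2
  · push Not at h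
    refine ⟨m, le_refl _, ?_, ?_⟩
    · intro h1
      exact lt_of_le_of_ne (h m h1 (le_refl _)) (fun h' => ht m h1 (le_refl _) h'.symm)
    · intro h1
      omega

/-- The open box between ranks. -/
def OBox (m : ℕ) (X Y : ℕ → ℝ) (l r b t : ℕ) : Set (ℝ × ℝ) := OI m X l r ×ˢ OI m Y b t

theorem OBox_open (m : ℕ) (X Y : ℕ → ℝ) (l r b t : ℕ) : IsOpen (OBox m X Y l r b t) :=
  (OI_open m X l r).prod (OI_open m Y b t)

theorem OBox_convex (m : ℕ) (X Y : ℕ → ℝ) (l r b t : ℕ) : Convex ℝ (OBox m X Y l r b t) :=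
  (OI_convex m X l r).prod (OI_convex m Y b t)

/-- **Visibility in a box.**  If `V` is closed with frontier disjoint from the open box, and the box
meets the interior of `V`, then the closed box lies in `V` and is convex. -/
theorem segment_subset_of_box {m : ℕ} {X Y : ℕ → ℝ} {l r b t : ℕ} {V : Set (ℝ × ℝ)}
    (hV : IsClosed V) (hdis : Disjoint (OBox m X Y l r b t) (frontier V))
    (hmeet : (OBox m X Y l r b t ∩ interior V).Nonempty)
    {g p : ℝ × ℝ} (hg1 : g.1 ∈ CI m X l r) (hg2 : g.2 ∈ CI m Y b t)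
    (hp : p ∈ closure (OBox m X Y l r b t)) : segment ℝ g p ⊆ V := by
  have hconn : IsPreconnected (OBox m X Y l r b t) := (OBox_convex m X Y l r b t).isPreconnected
  have hsub : OBox m X Y l r b t ⊆ V := by
    intro q hq
    by_contra hqV
    have hcov : OBox m X Y l r b t ⊆ interior V ∪ Vᶜ := by
      intro z hz
      by_cases hzV : z ∈ V
      · left
        by_contra hzi
        have : z ∈ frontier V := by
          rw [hV.frontier_eq]
          exact ⟨hzV, hzi⟩
        exact Set.disjoint_left.1 hdis hz this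
      · right; exact hzV
    obtain ⟨z, hz⟩ := hconn (interior V) Vᶜ isOpen_interior hV.isOpen_compl hcov hmeet ⟨q, hq, hqV⟩
    exact hz.2.2 (interior_subset hz.2.1)
  have hne : (OBox m X Y l r b t).Nonempty := hmeet.mono inter_subset_left
  have hne1 : (OI m X l r).Nonempty := hne.fst
  have hne2 : (OI m Y b t).Nonempty := hne.snd
  have hgc : g ∈ closure (OBox m X Y l r b t) := by
    unfold OBox
    rw [closure_prod_eq]
    exact ⟨CI_subset_closure hne1 hg1, CI_subset_closure hne2 hg2⟩
  have hcv : Convex ℝ (closure (OBox m X Y l r b t)) := (OBox_convex m X Y l r b t).closure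
  exact (hcv.segment_subset hgc hp).trans (closure_minimal hsub hV)

end Pool.Agent.Helper67.PY
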