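import Pool.Agent.Helper67.PY.Cells
import Pool.Agent.Helper67.PY.Flip

/-!
# From real coordinates to ranks
-/

namespace Pool.Agent.Helper67.PY

open Set

/-- Sorted enumeration: the rank function is monotone for the values. -/
noncomputable def sortEquiv {T : Type} [Fintype T] {m : ℕ} (hm : Fintype.card T = m) (f : T → ℝ) :
    T ≃ Fin m :=
  (Fintype.equivFinOfCardEq hm).trans (Tuple.sort (f ∘ (Fintype.equivFinOfCardEq hm).symm)).symm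

theorem sortEquiv_mono {T : Type} [Fintype T] {m : ℕ} (hm : Fintype.card T = m) (f : T → ℝ)
    {a b : T} (h : sortEquiv hm f a ≤ sortEquiv hm f b) : f a ≤ f b := by
  have hmono := Tuple.monotone_sort (f ∘ (Fintype.equivFinOfCardEq hm).symm)
  have h1 := hmono h
  simpa [sortEquiv] using h1

theorem sortEquiv_lt {T : Type} [Fintype T] {m : ℕ} (hm : Fintype.card T = m) (f : T → ℝ)
    {a b : T} (h : f a < f b) : sortEquiv hm f a < sortEquiv hm f b := by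
  by_contra h1
  exact absurd (sortEquiv_mono hm f (not_lt.1 h1)) (not_le.2 h)

namespace RSys

variable {H W : Type} (Q : RSys H W) [Fintype H] [Fintype W] {m : ℕ}
  (hH : Fintype.card H = m) (hW : Fintype.card W = m)

/-- the height rank of an edge, between `1` and `m` -/
noncomputable def rh (i : H) : ℕ := (sortEquiv hH Q.y i).val + 1

/-- the position rank of a wall, between `1` and `m` -/
noncomputable def rv (j : W) : ℕ := (sortEquiv hW Q.x j).val + 1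

omit [Fintype W] in
theorem rh_pos (i : H) : 1 ≤ Q.rh hH i := by unfold rh; omega

omit [Fintype W] in
theorem rh_le (i : H) : Q.rh hH i ≤ m := by
  unfold rh
  have := (sortEquiv hH Q.y i).isLt
  omega

omit [Fintype H] in
theorem rv_pos (j : W) : 1 ≤ Q.rv hW j := by unfold rv; omega

omit [Fintype H] in
theorem rv_le (j : W) : Q.rv hW j ≤ m := by
  unfold rv
  have := (sortEquiv hW Q.x j).isLt
  omega

omit [Fintype W] in
theorem rh_inj {i i' : H} (h : Q.rh hH i = Q.rh hH i') : i = i' := by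
  unfold rh at h
  exact (sortEquiv hH Q.y).injective (Fin.ext (by omega))

omit [Fintype H] in
theorem rv_inj {j j' : W} (h : Q.rv hW j = Q.rv hW j') : j = j' := by
  unfold rv at h
  exact (sortEquiv hW Q.x).injective (Fin.ext (by omega))

omit [Fintype W] in
theorem rh_mono {i i' : H} (h : Q.rh hH i ≤ Q.rh hH i') : Q.y i ≤ Q.y i' :=
  sortEquiv_mono hH Q.y (by unfold rh at h; exact Fin.le_def.2 (by omega))

omit [Fintype H] in
theorem rv_mono {j j' : W} (h : Q.rv hW j ≤ Q.rv hW j') : Q.x j ≤ Q.x j' :=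
  sortEquiv_mono hW Q.x (by unfold rv at h; exact Fin.le_def.2 (by omega))

omit [Fintype W] in
theorem rh_surj {h : ℕ} (h1 : 1 ≤ h) (h2 : h ≤ m) : ∃ i, Q.rh hH i = h := by
  refine ⟨(sortEquiv hH Q.y).symm ⟨h - 1, by omega⟩, ?_⟩
  unfold rh
  simp only [Equiv.apply_symm_apply]
  omega

omit [Fintype H] in
theorem rv_surj {h : ℕ} (h1 : 1 ≤ h) (h2 : h ≤ m) : ∃ j, Q.rv hW j = h := by
  refine ⟨(sortEquiv hW Q.x).symm ⟨h - 1, by omega⟩, ?_⟩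
  unfold rv
  simp only [Equiv.apply_symm_apply]
  omega

open Classical in
/-- left end (in ranks) of the edge of height rank `h`; the frame edges start at `0` -/
noncomputable def fL (h : ℕ) : ℕ :=
  if hh : 1 ≤ h ∧ h ≤ m then Q.rv hW (Q.lw (Classical.choose (Q.rh_surj hH hh.1 hh.2))) else 0

open Classical in
/-- right end (in ranks); the frame edges end at `m + 1` -/
noncomputable def fR (h : ℕ) : ℕ :=
  if hh : 1 ≤ h ∧ h ≤ m then Q.rv hW (Q.rw (Classical.choose (Q.rh_surj hH hh.1 hh.2))) else m + 1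

open Classical in
/-- bottom end (in ranks) of the wall of position rank `j` -/
noncomputable def fb (j : ℕ) : ℕ :=
  if hh : 1 ≤ j ∧ j ≤ m then Q.rh hH (Q.be (Classical.choose (Q.rv_surj hW hh.1 hh.2))) else 0

open Classical in
/-- top end (in ranks) of the wall of position rank `j` -/
noncomputable def ft (j : ℕ) : ℕ :=
  if hh : 1 ≤ j ∧ j ≤ m then Q.rh hH (Q.te (Classical.choose (Q.rv_surj hW hh.1 hh.2))) else m + 1

open Classical in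
/-- real height of a rank -/
noncomputable def fY (h : ℕ) : ℝ :=
  if hh : 1 ≤ h ∧ h ≤ m then Q.y (Classical.choose (Q.rh_surj hH hh.1 hh.2)) else 0

open Classical in
/-- real position of a rank -/
noncomputable def fX (j : ℕ) : ℝ :=
  if hh : 1 ≤ j ∧ j ≤ m then Q.x (Classical.choose (Q.rv_surj hW hh.1 hh.2)) else 0

omit [Fintype W] in
theorem choose_rh (i : H) (h : 1 ≤ Q.rh hH i ∧ Q.rh hH i ≤ m) :
    Classical.choose (Q.rh_surj hH h.1 h.2) = i :=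
  Q.rh_inj hH (Classical.choose_spec (Q.rh_surj hH h.1 h.2))

omit [Fintype H] in
theorem choose_rv (j : W) (h : 1 ≤ Q.rv hW j ∧ Q.rv hW j ≤ m) :
    Classical.choose (Q.rv_surj hW h.1 h.2) = j :=
  Q.rv_inj hW (Classical.choose_spec (Q.rv_surj hW h.1 h.2))

theorem fL_rh (i : H) : Q.fL hH hW (Q.rh hH i) = Q.rv hW (Q.lw i) := by
  have h : 1 ≤ Q.rh hH i ∧ Q.rh hH i ≤ m := ⟨Q.rh_pos hH i, Q.rh_le hH i⟩
  unfold fL
  rw [dif_pos h, Q.choose_rh hH i h]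

theorem fR_rh (i : H) : Q.fR hH hW (Q.rh hH i) = Q.rv hW (Q.rw i) := by
  have h : 1 ≤ Q.rh hH i ∧ Q.rh hH i ≤ m := ⟨Q.rh_pos hH i, Q.rh_le hH i⟩
  unfold fR
  rw [dif_pos h, Q.choose_rh hH i h]

omit [Fintype W] in
theorem fY_rh (i : H) : Q.fY hH (Q.rh hH i) = Q.y i := by
  have h : 1 ≤ Q.rh hH i ∧ Q.rh hH i ≤ m := ⟨Q.rh_pos hH i, Q.rh_le hH i⟩
  unfold fY
  rw [dif_pos h, Q.choose_rh hH i h]

theorem fb_rv (j : W) : Q.fb hH hW (Q.rv hW j) = Q.rh hH (Q.be j) := by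
  have h : 1 ≤ Q.rv hW j ∧ Q.rv hW j ≤ m := ⟨Q.rv_pos hW j, Q.rv_le hW j⟩
  unfold fb
  rw [dif_pos h, Q.choose_rv hW j h]

theorem ft_rv (j : W) : Q.ft hH hW (Q.rv hW j) = Q.rh hH (Q.te j) := by
  have h : 1 ≤ Q.rv hW j ∧ Q.rv hW j ≤ m := ⟨Q.rv_pos hW j, Q.rv_le hW j⟩
  unfold ft
  rw [dif_pos h, Q.choose_rv hW j h]

omit [Fintype H] in
theorem fX_rv (j : W) : Q.fX hW (Q.rv hW j) = Q.x j := by
  have h : 1 ≤ Q.rv hW j ∧ Q.rv hW j ≤ m := ⟨Q.rv_pos hW j, Q.rv_le hW j⟩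
  unfold fX
  rw [dif_pos h, Q.choose_rv hW j h]

omit [Fintype W] in
theorem fY_mono (a b : ℕ) (h1 : 1 ≤ a) (h2 : a ≤ b) (h3 : b ≤ m) : Q.fY hH a ≤ Q.fY hH b := by
  obtain ⟨i, rfl⟩ := Q.rh_surj hH h1 (h2.trans h3)
  obtain ⟨i', rfl⟩ := Q.rh_surj hH (h1.trans h2) h3
  rw [Q.fY_rh, Q.fY_rh]
  exact Q.rh_mono hH h2

omit [Fintype H] in
theorem fX_mono (a b : ℕ) (h1 : 1 ≤ a) (h2 : a ≤ b) (h3 : b ≤ m) : Q.fX hW a ≤ Q.fX hW b := by
  obtain ⟨i, rfl⟩ := Q.rv_surj hW h1 (h2.trans h3)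
  obtain ⟨i', rfl⟩ := Q.rv_surj hW (h1.trans h2) h3
  rw [Q.fX_rv, Q.fX_rv]
  exact Q.rv_mono hW h2

/-! ### The frame axioms -/

theorem fL_lt_fR (h : ℕ) : Q.fL hH hW h < Q.fR hH hW h := by
  by_cases hh : 1 ≤ h ∧ h ≤ m
  · obtain ⟨i, rfl⟩ := Q.rh_surj hH hh.1 hh.2
    rw [Q.fL_rh, Q.fR_rh]
    have := sortEquiv_lt hW Q.x (Q.x_lt i)
    unfold rv
    have h2 := Fin.lt_def.1 this
    omega
  · unfold fL fR
    rw [dif_neg hh, dif_neg hh]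
    omega

theorem fb_lt_ft (j : ℕ) : Q.fb hH hW j < Q.ft hH hW j := by
  by_cases hh : 1 ≤ j ∧ j ≤ m
  · obtain ⟨i, rfl⟩ := Q.rv_surj hW hh.1 hh.2
    rw [Q.fb_rv, Q.ft_rv]
    have := sortEquiv_lt hH Q.y (Q.y_lt i)
    unfold rh
    have h2 := Fin.lt_def.1 this
    omega
  · unfold fb ft
    rw [dif_neg hh, dif_neg hh]
    omega

theorem f_range {h : ℕ} (h1 : 1 ≤ h) (h2 : h ≤ m) : 1 ≤ Q.fL hH hW h ∧ Q.fR hH hW h ≤ m ∧
    1 ≤ Q.fb hH hW h ∧ Q.ft hH hW h ≤ m := by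
  obtain ⟨i, hi⟩ := Q.rh_surj hH h1 h2
  obtain ⟨j, hj⟩ := Q.rv_surj hW h1 h2
  refine ⟨?_, ?_, ?_, ?_⟩
  · rw [← hi, Q.fL_rh]; exact Q.rv_pos hW _
  · rw [← hi, Q.fR_rh]; exact Q.rv_le hW _
  · rw [← hj, Q.fb_rv]; exact Q.rh_pos hH _
  · rw [← hj, Q.ft_rv]; exact Q.rh_le hH _

theorem f_inc {h j : ℕ} (h1 : 1 ≤ h) (h2 : h ≤ m) (j1 : 1 ≤ j) (j2 : j ≤ m) :
    (Q.fL hH hW h = j ∨ Q.fR hH hW h = j) ↔ (Q.fb hH hW j = h ∨ Q.ft hH hW j = h) := by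
  obtain ⟨i, rfl⟩ := Q.rh_surj hH h1 h2
  obtain ⟨k, rfl⟩ := Q.rv_surj hW j1 j2
  rw [Q.fL_rh, Q.fR_rh, Q.fb_rv, Q.ft_rv]
  have hinc := Q.inc i k
  have e1 : ∀ a b : W, Q.rv hW a = Q.rv hW b ↔ a = b := fun a b => ⟨Q.rv_inj hW, fun h => by rw [h]⟩
  have e2 : ∀ a b : H, Q.rh hH a = Q.rh hH b ↔ a = b := fun a b => ⟨Q.rh_inj hH, fun h => by rw [h]⟩
  rw [e1, e1, e2, e2]
  exact hinc

theorem f_noncross {h j : ℕ} (h1 : 1 ≤ h) (h2 : h ≤ m) (j1 : 1 ≤ j) (j2 : j ≤ m) :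
    ¬ (Q.fL hH hW h < j ∧ j < Q.fR hH hW h ∧ Q.fb hH hW j < h ∧ h < Q.ft hH hW j) := by
  obtain ⟨i, rfl⟩ := Q.rh_surj hH h1 h2
  obtain ⟨k, rfl⟩ := Q.rv_surj hW j1 j2
  rw [Q.fL_rh, Q.fR_rh, Q.fb_rv, Q.ft_rv]
  rintro ⟨a1, a2, a3, a4⟩
  rcases Q.cross i k (Q.rv_mono hW a1.le) (Q.rv_mono hW a2.le) (Q.rh_mono hH a3.le)
    (Q.rh_mono hH a4.le) with h | h
  · rw [h] at a1; exact lt_irrefl _ a1
  · rw [h] at a2; exact lt_irrefl _ a2

/-- A box of ranks without edges is free of the curve. -/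
theorem box_disjoint {l r b t : ℕ} (hl : l ≤ m) (hr : 1 ≤ r) (hb : b ≤ m) (ht : 1 ≤ t)
    (hE : ∀ e, 1 ≤ e → e ≤ m → b < e → e < t → ¬ (Q.fL hH hW e < r ∧ l < Q.fR hH hW e))
    (hWl : ∀ w, 1 ≤ w → w ≤ m → l < w → w < r → ¬ (Q.fb hH hW w < t ∧ b < Q.ft hH hW w)) :
    Disjoint (OBox m (Q.fX hW) (Q.fY hH) l r b t) Q.curve := by
  rw [Set.disjoint_left]
  rintro p ⟨hp1, hp2⟩ hc
  -- strict comparisons of ranks from strict comparisons of reals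
  have hxr : ∀ c, 1 ≤ c → c ≤ m → p.1 < Q.fX hW c → l < c := by
    intro c c1 c2 hlt
    by_contra hle
    have hl1 : 1 ≤ l := by omega
    have := hp1.1 hl1
    have := Q.fX_mono hW c l c1 (not_lt.1 hle) hl
    linarith
  have hxl : ∀ c, 1 ≤ c → c ≤ m → Q.fX hW c ≤ p.1 → c < r := by
    intro c c1 c2 hlt
    by_contra hle
    have hl1 : r ≤ m := by omega
    have := hp1.2 hl1
    have := Q.fX_mono hW r c hr (not_lt.1 hle) c2
    linarith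
  have hxr' : ∀ c, 1 ≤ c → c ≤ m → p.1 ≤ Q.fX hW c → l < c := by
    intro c c1 c2 hlt
    by_contra hle
    have hl1 : 1 ≤ l := by omega
    have := hp1.1 hl1
    have := Q.fX_mono hW c l c1 (not_lt.1 hle) hl
    linarith
  have hyr' : ∀ c, 1 ≤ c → c ≤ m → p.2 ≤ Q.fY hH c → b < c := by
    intro c c1 c2 hlt
    by_contra hle
    have hl1 : 1 ≤ b := by omega
    have := hp2.1 hl1
    have := Q.fY_mono hH c b c1 (not_lt.1 hle) hb
    linarith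
  have hyl : ∀ c, 1 ≤ c → c ≤ m → Q.fY hH c ≤ p.2 → c < t := by
    intro c c1 c2 hlt
    by_contra hle
    have hl1 : t ≤ m := by omega
    have := hp2.2 hl1
    have := Q.fY_mono hH t c ht (not_lt.1 hle) c2
    linarith
  rcases hc with hc | hc
  · obtain ⟨i, h1, h2, h3⟩ := mem_iUnion.1 hc
    have e1 := Q.rh_pos hH i
    have e2 := Q.rh_le hH i
    refine hE (Q.rh hH i) e1 e2 ?_ ?_ ⟨?_, ?_⟩
    · exact hyr' _ e1 e2 (by rw [Q.fY_rh]; exact h3.le)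
    · exact hyl _ e1 e2 (by rw [Q.fY_rh]; exact h3.ge)
    · rw [Q.fL_rh]
      exact hxl _ (Q.rv_pos hW _) (Q.rv_le hW _) (by rw [Q.fX_rv]; exact h1)
    · rw [Q.fR_rh]
      exact hxr' _ (Q.rv_pos hW _) (Q.rv_le hW _) (by rw [Q.fX_rv]; exact h2)
  · obtain ⟨j, h1, h2, h3⟩ := mem_iUnion.1 hc
    have e1 := Q.rv_pos hW j
    have e2 := Q.rv_le hW j
    refine hWl (Q.rv hW j) e1 e2 ?_ ?_ ⟨?_, ?_⟩
    · exact hxr' _ e1 e2 (by rw [Q.fX_rv]; exact h1.le)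
    · exact hxl _ e1 e2 (by rw [Q.fX_rv]; exact h1.ge)
    · rw [Q.fb_rv]
      exact hyl _ (Q.rh_pos hH _) (Q.rh_le hH _) (by rw [Q.fY_rh]; exact h2)
    · rw [Q.ft_rv]
      exact hyr' _ (Q.rh_pos hH _) (Q.rh_le hH _) (by rw [Q.fY_rh]; exact h3)

/-- **Guards in ranks give guards in the plane.** -/
theorem guard_of_ranks (S : Finset (ℕ × ℕ))
    (hS : ∀ v ∈ S, 1 ≤ v.1 ∧ v.1 ≤ m ∧ 1 ≤ v.2 ∧ v.2 ≤ m)
    (hG : ∀ i j, i ≤ m → j ≤ m → ∃ v ∈ S, ∃ l r b t, l ≤ j ∧ j + 1 ≤ r ∧ b ≤ i ∧ i + 1 ≤ t ∧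
      l ≤ v.1 ∧ v.1 ≤ r ∧ b ≤ v.2 ∧ v.2 ≤ t ∧
      (∀ e, 1 ≤ e → e ≤ m → b < e → e < t → ¬ (Q.fL hH hW e < r ∧ l < Q.fR hH hW e)) ∧
      (∀ w, 1 ≤ w → w ≤ m → l < w → w < r → ¬ (Q.fb hH hW w < t ∧ b < Q.ft hH hW w)))
    {V : Set (ℝ × ℝ)} (hV : IsClosed V) (hreg : V ⊆ closure (interior V))
    (hfr : frontier V ⊆ Q.curve) {p : ℝ × ℝ} (hp : p ∈ V) :
    ∃ v ∈ S, segment ℝ (Q.fX hW v.1, Q.fY hH v.2) p ⊆ V := by
  obtain ⟨g, hg, hseg⟩ := guard_of_boxes (m := m) (X := Q.fX hW) (Y := Q.fY hH)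
    (Q.fX_mono hW) (Q.fY_mono hH) (C := Q.curve)
    (G := (fun v : ℕ × ℕ => (Q.fX hW v.1, Q.fY hH v.2)) '' (S : Set (ℕ × ℕ)))
    (by
      intro i j hi hj
      obtain ⟨v, hv, l, r, b, t, h1, h2, h3, h4, h5, h6, h7, h8, h9, h10⟩ := hG i j hi hj
      obtain ⟨s1, s2, s3, s4⟩ := hS v hv
      refine ⟨_, ⟨v, hv, rfl⟩, l, r, b, t, h1, h2, h3, h4, ⟨?_, ?_⟩, ⟨?_, ?_⟩, ?_⟩
      · intro hl
        exact Q.fX_mono hW l v.1 hl h5 s2
      · intro hr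
        exact Q.fX_mono hW v.1 r s1 h6 hr
      · intro hb
        exact Q.fY_mono hH b v.2 hb h7 s4
      · intro ht
        exact Q.fY_mono hH v.2 t s3 h8 ht
      · exact Q.box_disjoint hH hW (by omega) (by omega) (by omega) (by omega) h9 h10)
    hV hreg hfr hp
  obtain ⟨v, hv, rfl⟩ := hg
  exact ⟨v, hv, hseg⟩

end RSys

end Pool.Agent.Helper67.PY
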