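import Pool.Agent.Helper67.PY.Yard

/-!
# All regions bounded by a family of orthogonal polygonal curves
-/

namespace Pool.Agent.Helper67.PY

open Set Pool.Agent.Helper68.PY

namespace OrthYard

variable {k : ℕ} (Y : OrthYard k)

/-- One set of vertices guards every regular closed set whose frontier lies on the curves. -/
theorem guards_all (C : ℕ)
    (hcomb : ∀ M (F : Fr0 M), ∃ S : Finset (ℕ × ℕ), F.Inner S ∧ F.Guards S ∧
      3 * S.card ≤ 2 * M + C) :
    ∃ S : Finset (Σ t, ZMod (Y.n t)), 3 * S.card ≤ (∑ t, Y.n t) + (C + 4) ∧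
      ∀ V : Set (ℝ × ℝ), IsClosed V → V ⊆ closure (interior V) → frontier V ⊆ Y.boundary →
        ∀ p ∈ V, ∃ i ∈ S, segment ℝ ((Y.poly i.1).pt i.2) p ⊆ V := by
  classical
  have inst1 : ∀ t, NeZero (Y.n t) := fun t => ⟨(Y.poly t).pos.ne'⟩
  have inst2 : ∀ t, Fintype (Y.poly t).HE := fun t => Fintype.ofFinite _
  have inst3 : ∀ t, Fintype (Y.poly t).WE := fun t => Fintype.ofFinite _
  let Q0 : (t : Fin k) → RSys (Y.poly t).HE (Y.poly t).WE := fun t => (Y.poly t).sys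
  have hd : ∀ s t, s ≠ t → Disjoint (Q0 s).curve (Q0 t).curve := by
    intro s t hst
    have := Y.disj s t hst
    rw [← (Y.poly s).curve_eq, ← (Y.poly t).curve_eq] at this
    exact this
  let Q := RSys.sigma Q0 hd
  have hcurve : Q.curve = Y.boundary := by
    rw [show Q.curve = _ from RSys.sigma_curve Q0 hd]
    unfold boundary
    exact iUnion_congr (fun t => (Y.poly t).curve_eq)
  -- cardinalities
  have hc1 : ∀ t, Fintype.card (Y.poly t).HE = Fintype.card (Y.poly t).WE := by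
    intro t
    refine Fintype.card_congr ⟨(Y.poly t).succW, (Y.poly t).predH, ?_, ?_⟩
    · intro i; ext; simp [OrthPolygon.succW, OrthPolygon.predH]
    · intro j; ext; simp [OrthPolygon.succW, OrthPolygon.predH]
  have hc2 : ∀ t, Fintype.card (Y.poly t).HE + Fintype.card (Y.poly t).WE = Y.n t := by
    intro t
    have h1 := Fintype.card_congr (Equiv.sumCompl (fun i : ZMod (Y.n t) => (Y.poly t).Hor i))
    rw [Fintype.card_sum, ZMod.card] at h1
    exact h1
  obtain ⟨m, hmdef⟩ : ∃ m, m = ∑ t, Fintype.card (Y.poly t).HE := ⟨_, rfl⟩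
  have hH : Fintype.card (Σ t, (Y.poly t).HE) = m := by rw [Fintype.card_sigma, hmdef]
  have hW : Fintype.card (Σ t, (Y.poly t).WE) = m := by
    rw [Fintype.card_sigma, hmdef]
    exact Finset.sum_congr rfl (fun t _ => (hc1 t).symm)
  have hnm : (∑ t, Y.n t) = 2 * m := by
    rw [hmdef, Finset.mul_sum]
    refine Finset.sum_congr rfl (fun t _ => ?_)
    have h1 := hc1 t
    have h2 := hc2 t
    omega
  have hm : 1 ≤ m := by
    have t0 : Fin k := ⟨0, Y.pos⟩
    have h1 : Fintype.card (Y.poly t0).HE ≤ m := by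
      rw [hmdef]
      exact Finset.single_le_sum (f := fun t => Fintype.card (Y.poly t).HE) (fun _ _ => Nat.zero_le _)
        (Finset.mem_univ t0)
    have h2 := hc1 t0
    have h3 := hc2 t0
    have h4 := (Y.poly t0).pos
    omega
  obtain ⟨S, hin, hgu, hcard⟩ := hcomb (m + 2) (Q.toFr0 hH hW hm)
  have hvert : ∀ v ∈ S, ∃ w : Σ t, ZMod (Y.n t),
      (Y.poly w.1).pt w.2 = (Q.fX hW v.1, Q.fY hH v.2) := by
    intro v hv
    obtain ⟨h1, h2, h3⟩ := hin v hv
    obtain ⟨⟨t, i⟩, hi⟩ := Q.rh_surj hH (h := v.2) (by omega) (by omega)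
    have hY : Q.fY hH v.2 = ((Y.poly t).pt i.1).2 := by
      rw [← hi, Q.fY_rh]; rfl
    have hX : Q.fX hW v.1 = ((Y.poly t).pt i.1).1 ∨ Q.fX hW v.1 = ((Y.poly t).pt (i.1 + 1)).1 := by
      rcases h3 with h3 | h3
      · have h6 : v.1 = Q.rv hW (Q.lw ⟨t, i⟩) := by
          rw [← Q.fL_rh hH hW, hi]; exact h3
        rw [h6, Q.fX_rv]
        exact (Y.poly t).lw_cases i
      · have h6 : v.1 = Q.rv hW (Q.rw ⟨t, i⟩) := by
          rw [← Q.fR_rh hH hW, hi]; exact h3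
        rw [h6, Q.fX_rv]
        exact (Y.poly t).rw_cases i
    rcases hX with hX | hX
    · exact ⟨⟨t, i.1⟩, Prod.ext hX.symm hY.symm⟩
    · exact ⟨⟨t, i.1 + 1⟩, Prod.ext hX.symm (by rw [hY]; exact i.2.symm)⟩
  have inst4 : Nonempty (Σ t, ZMod (Y.n t)) := ⟨⟨⟨0, Y.pos⟩, 0⟩⟩
  choose! f hf using hvert
  refine ⟨S.image f, ?_, ?_⟩
  · have := Finset.card_image_le (s := S) (f := f)
    omega
  · intro V hV1 hV2 hV3 p hp
    rw [← hcurve] at hV3
    obtain ⟨v, hv, hseg⟩ := Q.guard_of_frame hH hW hm S hin hgu hV1 hV2 hV3 hp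
    refine ⟨f v, Finset.mem_image_of_mem f hv, ?_⟩
    rw [hf v hv]
    exact hseg

/-- The two regions of a regular closed set. -/
theorem guards_region (C : ℕ)
    (hcomb : ∀ M (F : Fr0 M), ∃ S : Finset (ℕ × ℕ), F.Inner S ∧ F.Guards S ∧
      3 * S.card ≤ 2 * M + C) (R : Set (ℝ × ℝ)) (h1 : IsClosed R)
    (h2 : R ⊆ closure (interior R)) (h3 : frontier R ⊆ Y.boundary) :
    ∃ S : Finset (Σ t, ZMod (Y.n t)), 3 * S.card ≤ (∑ t, Y.n t) + (C + 4) ∧
      (∀ p ∈ R, ∃ i ∈ S, segment ℝ ((Y.poly i.1).pt i.2) p ⊆ R) ∧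
      (∀ p ∈ closure Rᶜ, ∃ i ∈ S, segment ℝ ((Y.poly i.1).pt i.2) p ⊆ closure Rᶜ) := by
  obtain ⟨S, hS1, hS2⟩ := Y.guards_all C hcomb
  refine ⟨S, hS1, hS2 R h1 h2 h3, hS2 (closure Rᶜ) isClosed_closure ?_ ?_⟩
  · refine closure_mono ?_
    exact interior_maximal subset_closure h1.isOpen_compl
  · refine frontier_closure_subset.trans ?_
    rw [frontier_compl]
    exact h3

end OrthYard

end Pool.Agent.Helper67.PY
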