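import Pool.Agent.Helper67.PY.Final

/-!
# Prison yards with holes (even-odd rule)
-/

namespace Pool.Agent.Helper67.PY

open Set Pool.Agent.Helper68.PY

namespace RSys

/-- Disjoint union of curve systems. -/
def sigma {T : Type} {H W : T → Type} (Q : (t : T) → RSys (H t) (W t))
    (hd : ∀ s t, s ≠ t → Disjoint (Q s).curve (Q t).curve) :
    RSys (Σ t, H t) (Σ t, W t) where
  y := fun i => (Q i.1).y i.2
  x := fun j => (Q j.1).x j.2
  lw := fun i => ⟨i.1, (Q i.1).lw i.2⟩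
  rw := fun i => ⟨i.1, (Q i.1).rw i.2⟩
  be := fun j => ⟨j.1, (Q j.1).be j.2⟩
  te := fun j => ⟨j.1, (Q j.1).te j.2⟩
  x_lt := fun i => (Q i.1).x_lt i.2
  y_lt := fun j => (Q j.1).y_lt j.2
  inc := by
    rintro ⟨s, i⟩ ⟨t, j⟩
    by_cases h : s = t
    · subst h
      have := (Q s).inc i j
      simpa using this
    · constructor
      · rintro (h' | h')
        · exact absurd (congrArg Sigma.fst h') h
        · exact absurd (congrArg Sigma.fst h') h
      · rintro (h' | h')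
        · exact absurd (congrArg Sigma.fst h').symm h
        · exact absurd (congrArg Sigma.fst h').symm h
  cross := by
    rintro ⟨s, i⟩ ⟨t, j⟩ h1 h2 h3 h4
    by_cases h : s = t
    · subst h
      have := (Q s).cross i j h1 h2 h3 h4
      simpa using this
    · exfalso
      have t1 : ((Q t).x j, (Q s).y i) ∈ (Q s).curve := Or.inl (mem_iUnion.2 ⟨i, h1, h2, rfl⟩)
      have t2 : ((Q t).x j, (Q s).y i) ∈ (Q t).curve := Or.inr (mem_iUnion.2 ⟨j, rfl, h3, h4⟩)
      exact Set.disjoint_left.1 (hd s t h) t1 t2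
  hh := by
    rintro ⟨s, i⟩ ⟨t, i'⟩ hne hy
    by_cases h : s = t
    · subst h
      exact (Q s).hh i i' (fun h => hne (by rw [h])) hy
    · by_contra hcon
      push Not at hcon
      have hy' : (Q s).y i = (Q t).y i' := hy
      have m1 := ((Q s).x_lt i).le
      have m2 := ((Q t).x_lt i').le
      have c1 : (Q t).x ((Q t).lw i') ≤ (Q s).x ((Q s).rw i) := hcon.1
      have c2 : (Q s).x ((Q s).lw i) ≤ (Q t).x ((Q t).rw i') := hcon.2
      have t1 : (max ((Q s).x ((Q s).lw i)) ((Q t).x ((Q t).lw i')), (Q s).y i) ∈ (Q s).curve :=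
        Or.inl (mem_iUnion.2 ⟨i, le_max_left _ _, max_le m1 c1, rfl⟩)
      have t2 : (max ((Q s).x ((Q s).lw i)) ((Q t).x ((Q t).lw i')), (Q s).y i) ∈ (Q t).curve :=
        Or.inl (mem_iUnion.2 ⟨i', le_max_right _ _, max_le c2 m2, hy'⟩)
      exact Set.disjoint_left.1 (hd s t h) t1 t2
  vv := by
    rintro ⟨s, i⟩ ⟨t, i'⟩ hne hy
    by_cases h : s = t
    · subst h
      exact (Q s).vv i i' (fun h => hne (by rw [h])) hy
    · by_contra hcon
      push Not at hcon
      have hy' : (Q s).x i = (Q t).x i' := hy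
      have m1 := ((Q s).y_lt i).le
      have m2 := ((Q t).y_lt i').le
      have c1 : (Q t).y ((Q t).be i') ≤ (Q s).y ((Q s).te i) := hcon.1
      have c2 : (Q s).y ((Q s).be i) ≤ (Q t).y ((Q t).te i') := hcon.2
      have t1 : ((Q s).x i, max ((Q s).y ((Q s).be i)) ((Q t).y ((Q t).be i'))) ∈ (Q s).curve :=
        Or.inr (mem_iUnion.2 ⟨i, rfl, le_max_left _ _, max_le m1 c1⟩)
      have t2 : ((Q s).x i, max ((Q s).y ((Q s).be i)) ((Q t).y ((Q t).be i'))) ∈ (Q t).curve :=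
        Or.inr (mem_iUnion.2 ⟨i', hy', le_max_right _ _, max_le c2 m2⟩)
      exact Set.disjoint_left.1 (hd s t h) t1 t2

theorem sigma_curve {T : Type} {H W : T → Type} (Q : (t : T) → RSys (H t) (W t))
    (hd : ∀ s t, s ≠ t → Disjoint (Q s).curve (Q t).curve) :
    (sigma Q hd).curve = ⋃ t, (Q t).curve := by
  ext p
  constructor
  · rintro (hp | hp)
    · obtain ⟨⟨t, i⟩, hi⟩ := mem_iUnion.1 hp
      exact mem_iUnion.2 ⟨t, Or.inl (mem_iUnion.2 ⟨i, hi⟩)⟩
    · obtain ⟨⟨t, i⟩, hi⟩ := mem_iUnion.1 hp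
      exact mem_iUnion.2 ⟨t, Or.inr (mem_iUnion.2 ⟨i, hi⟩)⟩
  · intro hp
    obtain ⟨t, hp⟩ := mem_iUnion.1 hp
    rcases hp with hp | hp
    · obtain ⟨i, hi⟩ := mem_iUnion.1 hp
      exact Or.inl (mem_iUnion.2 ⟨⟨t, i⟩, hi⟩)
    · obtain ⟨i, hi⟩ := mem_iUnion.1 hp
      exact Or.inr (mem_iUnion.2 ⟨⟨t, i⟩, hi⟩)

variable {H W : Type} (Q : RSys H W) [Fintype H] [Fintype W]

/-- The curve together with the points of parity `c`. -/
def parSet (c : ZMod 2) : Set (ℝ × ℝ) := Q.curve ∪ {p | p ∉ Q.curve ∧ Q.par p = c}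

theorem parSet_facts (c : ZMod 2) : IsClosed (Q.parSet c) ∧
    Q.parSet c ⊆ closure (interior (Q.parSet c)) ∧ frontier (Q.parSet c) ⊆ Q.curve := by
  have hopen : ∀ c : ZMod 2, IsOpen {p | p ∉ Q.curve ∧ Q.par p = c} := by
    intro c
    rw [isOpen_iff_mem_nhds]
    rintro p ⟨hp1, hp2⟩
    have h1 := Q.par_locally hp1
    have h2 : ∀ᶠ q in nhds p, q ∉ Q.curve := Q.isClosed_curve.isOpen_compl.mem_nhds hp1
    filter_upwards [h1, h2] with q hq1 hq2
    exact ⟨hq2, hq1.trans hp2⟩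
  have hcompl : (Q.parSet c)ᶜ = {p | p ∉ Q.curve ∧ Q.par p = c + 1} := by
    ext p
    have e : Q.par p = c + 1 ↔ Q.par p ≠ c := by
      generalize Q.par p = u
      revert u c
      decide
    simp only [parSet, mem_compl_iff, mem_union, mem_ofPred_eq, e]
    tauto
  have hcl : IsClosed (Q.parSet c) := by
    rw [← isOpen_compl_iff, hcompl]
    exact hopen _
  have hin : {p | p ∉ Q.curve ∧ Q.par p = c} ⊆ interior (Q.parSet c) :=
    interior_maximal subset_union_right (hopen c)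
  refine ⟨hcl, ?_, ?_⟩
  · rintro p (hp | hp)
    · exact closure_mono hin (Q.flip c hp)
    · exact subset_closure (hin hp)
  · intro p hp
    rw [hcl.frontier_eq] at hp
    by_contra hpc
    rcases hp.1 with h | h
    · exact hpc h
    · exact hp.2 (hin h)

omit [Fintype W] in
open Classical in
theorem par_eq_card (p : ℝ × ℝ) : Q.par p =
    ((Finset.univ.filter (fun i => p.2 < Q.y i ∧ Q.x (Q.lw i) ≤ p.1 ∧ p.1 < Q.x (Q.rw i))).card :
      ZMod 2) := by
  unfold par
  rw [Finset.card_filter]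
  push_cast
  refine Finset.sum_congr rfl (fun i _ => ?_)
  have hx := Q.x_lt i
  have e2 : (1 : ZMod 2) + 1 = 0 := by decide
  by_cases h1 : p.2 < Q.y i
  · by_cases h2 : Q.x (Q.lw i) ≤ p.1
    · by_cases h3 : Q.x (Q.rw i) ≤ p.1
      · have h4 : ¬ p.1 < Q.x (Q.rw i) := not_lt.2 h3
        simp [h1, h2, h3, h4, e2]
      · have h4 : p.1 < Q.x (Q.rw i) := not_le.1 h3
        simp [h1, h2, h3, h4]
    · have h3 : ¬ Q.x (Q.rw i) ≤ p.1 := fun h3 => h2 (hx.le.trans h3)
      simp [h2, h3]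
  · simp [h1]

end RSys

namespace OrthPolygon

variable {n : ℕ} (P : OrthPolygon n)

/-- Number of horizontal edges strictly above the point `p` (the left end belongs to an edge, the
right end does not). -/
noncomputable def crossings (p : ℝ × ℝ) : ℕ :=
  Nat.card {i : ZMod n // P.Hor i ∧ p.2 < (P.pt i).2 ∧
    min (P.pt i).1 (P.pt (i + 1)).1 ≤ p.1 ∧ p.1 < max (P.pt i).1 (P.pt (i + 1)).1}

theorem x_lw (i : P.HE) : P.sys.x (P.sys.lw i) = min (P.pt i.1).1 (P.pt (i.1 + 1)).1 := by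
  classical
  by_cases h : (P.pt i.1).1 < (P.pt (i.1 + 1)).1
  · have e1 : P.sys.lw i = P.predW i := by simp [sys, h]
    rw [e1, min_eq_left h.le]; exact P.x_predW i
  · have e1 : P.sys.lw i = P.succW i := by simp [sys, h]
    rw [e1, min_eq_right (not_lt.1 h)]; exact P.x_succW i

theorem x_rw (i : P.HE) : P.sys.x (P.sys.rw i) = max (P.pt i.1).1 (P.pt (i.1 + 1)).1 := by
  classical
  by_cases h : (P.pt i.1).1 < (P.pt (i.1 + 1)).1
  · have e1 : P.sys.rw i = P.succW i := by simp [sys, h]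
    rw [e1, max_eq_right h.le]; exact P.x_succW i
  · have e1 : P.sys.rw i = P.predW i := by simp [sys, h]
    rw [e1, max_eq_left (not_lt.1 h)]; exact P.x_predW i

end OrthPolygon

/-- A family of pairwise disjoint orthogonal polygonal curves (for a polygon with holes: the outer
boundary and the boundaries of the holes). -/
structure OrthYard (k : ℕ) where
  /-- numbers of vertices -/
  n : Fin k → ℕ
  /-- the closed curves -/
  poly : (t : Fin k) → OrthPolygon (n t)
  pos : 0 < k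
  disj : ∀ s t, s ≠ t → Disjoint (poly s).boundary (poly t).boundary

namespace OrthYard

variable {k : ℕ} (Y : OrthYard k)

/-- The union of all curves. -/
def boundary : Set (ℝ × ℝ) := ⋃ t, (Y.poly t).boundary

/-- Number of horizontal edges above a point. -/
noncomputable def crossings (p : ℝ × ℝ) : ℕ := ∑ t, (Y.poly t).crossings p

/-- The closed region bounded by the curves (even-odd rule). -/
def region : Set (ℝ × ℝ) := Y.boundary ∪ {p | p ∉ Y.boundary ∧ Odd (Y.crossings p)}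

/-- The closed complementary region (even-odd rule). -/
def exterior : Set (ℝ × ℝ) := Y.boundary ∪ {p | p ∉ Y.boundary ∧ Even (Y.crossings p)}

theorem yard_guards (C : ℕ)
    (hcomb : ∀ M (F : Fr0 M), ∃ S : Finset (ℕ × ℕ), F.Inner S ∧ F.Guards S ∧
      3 * S.card ≤ 2 * M + C) :
    ∃ S : Finset (Σ t, ZMod (Y.n t)), 3 * S.card ≤ (∑ t, Y.n t) + (C + 4) ∧
      (∀ p ∈ Y.region, ∃ i ∈ S, segment ℝ ((Y.poly i.1).pt i.2) p ⊆ Y.region) ∧
      (∀ p ∈ Y.exterior, ∃ i ∈ S, segment ℝ ((Y.poly i.1).pt i.2) p ⊆ Y.exterior) := by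
  classical
  have inst1 : ∀ t, NeZero (Y.n t) := fun t => ⟨(Y.poly t).pos.ne'⟩
  have inst2 : ∀ t, Fintype (Y.poly t).HE := fun t => Fintype.ofFinite _
  have inst3 : ∀ t, Fintype (Y.poly t).WE := fun t => Fintype.ofFinite _
  let Q0 : (t : Fin k) → RSys (Y.poly t).HE (Y.poly t).WE := fun t => (Y.poly t).sys
  have hd : ∀ s t, s ≠ t → Disjoint (Q0 s).curve (Q0 t).curve := by
    intro s t hst
    have := Y.disj s t hst
    rw [← (Y.poly s).curve_eq, ← (Y.poly t).curve_eq] at this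
    exact this
  let Q := RSys.sigma Q0 hd
  have hcurve : Q.curve = Y.boundary := by
    rw [show Q.curve = _ from RSys.sigma_curve Q0 hd]
    unfold boundary
    exact iUnion_congr (fun t => (Y.poly t).curve_eq)
  -- cardinalities
  have hc1 : ∀ t, Fintype.card (Y.poly t).HE = Fintype.card (Y.poly t).WE := by
    intro t
    refine Fintype.card_congr ⟨(Y.poly t).succW, (Y.poly t).predH, ?_, ?_⟩
    · intro i; ext; simp [OrthPolygon.succW, OrthPolygon.predH]
    · intro j; ext; simp [OrthPolygon.succW, OrthPolygon.predH]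
  have hc2 : ∀ t, Fintype.card (Y.poly t).HE + Fintype.card (Y.poly t).WE = Y.n t := by
    intro t
    have h1 := Fintype.card_congr (Equiv.sumCompl (fun i : ZMod (Y.n t) => (Y.poly t).Hor i))
    rw [Fintype.card_sum, ZMod.card] at h1
    exact h1
  obtain ⟨m, hmdef⟩ : ∃ m, m = ∑ t, Fintype.card (Y.poly t).HE := ⟨_, rfl⟩
  have hH : Fintype.card (Σ t, (Y.poly t).HE) = m := by rw [Fintype.card_sigma, hmdef]
  have hW : Fintype.card (Σ t, (Y.poly t).WE) = m := by
    rw [Fintype.card_sigma, hmdef]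
    exact Finset.sum_congr rfl (fun t _ => (hc1 t).symm)
  have hnm : (∑ t, Y.n t) = 2 * m := by
    rw [hmdef, Finset.mul_sum]
    refine Finset.sum_congr rfl (fun t _ => ?_)
    have h1 := hc1 t
    have h2 := hc2 t
    omega
  have hm : 1 ≤ m := by
    have t0 : Fin k := ⟨0, Y.pos⟩
    have h1 : Fintype.card (Y.poly t0).HE ≤ m := by
      rw [hmdef]
      exact Finset.single_le_sum (f := fun t => Fintype.card (Y.poly t).HE) (fun _ _ => Nat.zero_le _)
        (Finset.mem_univ t0)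
    have h2 := hc1 t0
    have h3 := hc2 t0
    have h4 := (Y.poly t0).pos
    omega
  obtain ⟨S, hin, hgu, hcard⟩ := hcomb (m + 2) (Q.toFr0 hH hW hm)
  have hvert : ∀ v ∈ S, ∃ w : Σ t, ZMod (Y.n t),
      (Y.poly w.1).pt w.2 = (Q.fX hW v.1, Q.fY hH v.2) := by
    intro v hv
    obtain ⟨h1, h2, h3⟩ := hin v hv
    obtain ⟨⟨t, i⟩, hi⟩ := Q.rh_surj hH (h := v.2) (by omega) (by omega)
    have hY : Q.fY hH v.2 = ((Y.poly t).pt i.1).2 := by
      rw [← hi, Q.fY_rh]; rfl
    have hX : Q.fX hW v.1 = ((Y.poly t).pt i.1).1 ∨ Q.fX hW v.1 = ((Y.poly t).pt (i.1 + 1)).1 := by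
      rcases h3 with h3 | h3
      · have h6 : v.1 = Q.rv hW (Q.lw ⟨t, i⟩) := by
          rw [← Q.fL_rh hH hW, hi]; exact h3
        rw [h6, Q.fX_rv]
        exact (Y.poly t).lw_cases i
      · have h6 : v.1 = Q.rv hW (Q.rw ⟨t, i⟩) := by
          rw [← Q.fR_rh hH hW, hi]; exact h3
        rw [h6, Q.fX_rv]
        exact (Y.poly t).rw_cases i
    rcases hX with hX | hX
    · exact ⟨⟨t, i.1⟩, Prod.ext hX.symm hY.symm⟩
    · exact ⟨⟨t, i.1 + 1⟩, Prod.ext hX.symm (by rw [hY]; exact i.2.symm)⟩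
  have inst4 : Nonempty (Σ t, ZMod (Y.n t)) := ⟨⟨⟨0, Y.pos⟩, 0⟩⟩
  choose! f hf using hvert
  -- the two regions
  have hpar : ∀ p, Q.par p = (Y.crossings p : ZMod 2) := by
    intro p
    rw [Q.par_eq_card]
    congr 1
    unfold crossings OrthPolygon.crossings
    rw [Finset.card_filter, ← Finset.univ_sigma_univ, Finset.sum_sigma]
    refine Finset.sum_congr rfl (fun t _ => ?_)
    rw [← Finset.card_filter, ← Fintype.card_subtype, ← Nat.card_eq_fintype_card]
    refine Nat.card_congr ⟨fun i => ⟨i.1.1, ?_⟩, fun i => ⟨⟨i.1, i.2.1⟩, ?_⟩, ?_, ?_⟩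
    · have h1 := i.2
      have h2 : p.2 < ((Y.poly t).pt i.1.1).2 ∧ (Y.poly t).sys.x ((Y.poly t).sys.lw i.1) ≤ p.1 ∧
        p.1 < (Y.poly t).sys.x ((Y.poly t).sys.rw i.1) := h1
      rw [(Y.poly t).x_lw, (Y.poly t).x_rw] at h2
      exact ⟨i.1.2, h2⟩
    · have h1 := i.2.2
      show p.2 < ((Y.poly t).pt i.1).2 ∧ (Y.poly t).sys.x ((Y.poly t).sys.lw ⟨i.1, i.2.1⟩) ≤ p.1 ∧
        p.1 < (Y.poly t).sys.x ((Y.poly t).sys.rw ⟨i.1, i.2.1⟩)
      rw [(Y.poly t).x_lw, (Y.poly t).x_rw]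
      exact h1
    · intro i; rfl
    · intro i; rfl
  have hreg : Q.parSet 1 = Y.region := by
    unfold RSys.parSet region
    rw [hcurve]
    ext p
    simp only [mem_union, mem_ofPred_eq, hpar]
    rw [ZMod.natCast_eq_one_iff_odd]
  have hext : Q.parSet 0 = Y.exterior := by
    unfold RSys.parSet exterior
    rw [hcurve]
    ext p
    simp only [mem_union, mem_ofPred_eq, hpar]
    rw [ZMod.natCast_eq_zero_iff_even]
  refine ⟨S.image f, ?_, ?_, ?_⟩
  · have := Finset.card_image_le (s := S) (f := f)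
    omega
  · intro p hp
    have hfacts := Q.parSet_facts 1
    rw [hreg] at hfacts
    obtain ⟨v, hv, hseg⟩ := Q.guard_of_frame hH hW hm S hin hgu hfacts.1 hfacts.2.1 hfacts.2.2 hp
    refine ⟨f v, Finset.mem_image_of_mem f hv, ?_⟩
    rw [hf v hv]
    exact hseg
  · intro p hp
    have hfacts := Q.parSet_facts 0
    rw [hext] at hfacts
    obtain ⟨v, hv, hseg⟩ := Q.guard_of_frame hH hW hm S hin hgu hfacts.1 hfacts.2.1 hfacts.2.2 hp
    refine ⟨f v, Finset.mem_image_of_mem f hv, ?_⟩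
    rw [hf v hv]
    exact hseg

end OrthYard

end Pool.Agent.Helper67.PY
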